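import Pool.Agent.H28.MZ.Targets

/-!
# The smooth cutoff `V` (module VV)
-/

set_option autoImplicit false

open Complex MeasureTheory Set

namespace Pool.Agent.H2.PZ

open Pool.Agent.H28.MZ

theorem g_int : Integrable (fun v : ℝ => Real.exp (-(v ^ 2 / 4))) := by
  have h := integrable_exp_neg_mul_sq (b := 1 / 4) (by norm_num)
  refine h.congr (Filter.Eventually.of_forall fun v => ?_)
  simp only
  congr 1
  ring

theorem g_val : ∫ v : ℝ, Real.exp (-(v ^ 2 / 4)) = 2 * Real.sqrt Real.pi := by
  have h := integral_gaussian (1 / 4)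
  have h2 : (fun v : ℝ => Real.exp (-(v ^ 2 / 4))) = fun v : ℝ => Real.exp (-(1 / 4) * v ^ 2) := by
    funext v
    congr 1
    ring
  rw [h2, h]
  rw [show Real.pi / (1 / 4) = 2 ^ 2 * Real.pi by ring, Real.sqrt_mul (by positivity),
    Real.sqrt_sq (by norm_num)]

theorem spi_pos : 0 < Real.sqrt Real.pi := Real.sqrt_pos.2 Real.pi_pos

/-- real quadratic exponentials are integrable -/
theorem quad_int (A : ℝ) : Integrable (fun v : ℝ => Real.exp (A * v - v ^ 2 / 4)) := by
  have h := (integrable_cexp_quadratic (b := 1 / 4) (by norm_num) (A : ℂ) 0).norm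
  refine h.congr (Filter.Eventually.of_forall fun v => ?_)
  simp only [Complex.norm_exp]
  congr 1
  have : (-(1 / 4) * (v : ℂ) ^ 2 + A * v + 0) = ((A * v - v ^ 2 / 4 : ℝ) : ℂ) := by
    push_cast
    ring
  rw [this, Complex.ofReal_re]

theorem V_nonneg (x : ℝ) : 0 ≤ V x := by
  unfold V
  refine mul_nonneg (by positivity) ?_
  exact setIntegral_nonneg measurableSet_Ioi fun v _ => (Real.exp_pos _).le

theorem V_le_one (x : ℝ) : V x ≤ 1 := by
  unfold V
  have h : ∫ v in Ioi (Real.log x), Real.exp (-(v ^ 2 / 4)) ≤ 2 * Real.sqrt Real.pi := by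
    rw [← g_val]
    exact setIntegral_le_integral g_int (Filter.Eventually.of_forall fun v => (Real.exp_pos _).le)
  have hp := spi_pos
  calc 1 / (2 * Real.sqrt Real.pi) * ∫ v in Ioi (Real.log x), Real.exp (-(v ^ 2 / 4))
      ≤ 1 / (2 * Real.sqrt Real.pi) * (2 * Real.sqrt Real.pi) :=
        mul_le_mul_of_nonneg_left h (by positivity)
    _ = 1 := by field_simp

theorem V_anti : AntitoneOn V (Ioi 0) := by
  intro x hx y hy hxy
  unfold V
  refine mul_le_mul_of_nonneg_left ?_ (by positivity)
  refine setIntegral_mono_set g_int.integrableOn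
    (Filter.Eventually.of_forall fun v => (Real.exp_pos _).le) ?_
  exact (Ioi_subset_Ioi (Real.log_le_log hx hxy)).eventuallyLE

theorem V_cont : ContinuousOn V (Ioi 0) := by
  have h0 : ∀ L : ℝ, ∫ v in Ioi L, Real.exp (-(v ^ 2 / 4)) =
      (∫ v in Ioi (0 : ℝ), Real.exp (-(v ^ 2 / 4))) - ∫ v in (0 : ℝ)..L,
        Real.exp (-(v ^ 2 / 4)) := by
    intro L
    rw [← intervalIntegral.integral_Ioi_sub_Ioi' (g_int.integrableOn (s := Ioi (0 : ℝ)))
      (g_int.integrableOn (s := Ioi L))]
    ring
  have h1 : Continuous fun L : ℝ => ∫ v in Ioi L, Real.exp (-(v ^ 2 / 4)) := by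
    have : (fun L : ℝ => ∫ v in Ioi L, Real.exp (-(v ^ 2 / 4))) = fun L : ℝ =>
        (∫ v in Ioi (0 : ℝ), Real.exp (-(v ^ 2 / 4))) - ∫ v in (0 : ℝ)..L,
        Real.exp (-(v ^ 2 / 4)) := funext h0
    rw [this]
    exact continuous_const.sub
      (intervalIntegral.continuous_primitive (fun a b => g_int.intervalIntegrable) 0)
  unfold V
  refine ContinuousOn.mul continuousOn_const ?_
  exact h1.comp_continuousOn (Real.continuousOn_log.mono fun x hx => (ne_of_gt hx : x ≠ 0))

theorem V_decay (A : ℝ) (hA : 0 ≤ A) : ∃ C : ℝ, 0 < C ∧ ∀ x : ℝ, 0 < x → V x ≤ C * x ^ (-A) := by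
  set J : ℝ := ∫ v : ℝ, Real.exp (A * v - v ^ 2 / 4) with hJ
  have hJ0 : 0 ≤ J := integral_nonneg fun v => (Real.exp_pos _).le
  have hp := spi_pos
  refine ⟨1 / (2 * Real.sqrt Real.pi) * (J + 1), by positivity, fun x hx => ?_⟩
  unfold V
  rw [mul_assoc]
  refine mul_le_mul_of_nonneg_left ?_ (by positivity)
  have hx' : x ^ (-A) = Real.exp (-A * Real.log x) := by
    rw [Real.rpow_def_of_pos hx]
    congr 1
    ring
  rw [hx']
  calc ∫ v in Ioi (Real.log x), Real.exp (-(v ^ 2 / 4))
      ≤ ∫ v in Ioi (Real.log x), Real.exp (-A * Real.log x) * Real.exp (A * v - v ^ 2 / 4) := by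
        refine setIntegral_mono_on g_int.integrableOn ((quad_int A).const_mul _).integrableOn
          measurableSet_Ioi fun v hv => ?_
        rw [← Real.exp_add]
        refine Real.exp_le_exp.2 ?_
        have hv' : Real.log x < v := hv
        nlinarith [mul_nonneg hA (sub_nonneg.2 hv'.le)]
    _ ≤ ∫ v : ℝ, Real.exp (-A * Real.log x) * Real.exp (A * v - v ^ 2 / 4) :=
        setIntegral_le_integral ((quad_int A).const_mul _)
          (Filter.Eventually.of_forall fun v => by positivity)
    _ = Real.exp (-A * Real.log x) * J := by rw [integral_const_mul]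
    _ ≤ (J + 1) * Real.exp (-A * Real.log x) := by
        nlinarith [Real.exp_pos (-A * Real.log x)]

/-- the inner Gaussian integral -/
theorem inner_gauss (c y : ℝ) :
    ∫ v : ℝ, cexp (-(c + v * I) * y) * cexp ((c + v * I) ^ 2) =
      ((Real.sqrt Real.pi * Real.exp (-(y ^ 2 / 4)) : ℝ) : ℂ) := by
  have h : ∀ v : ℝ, cexp (-(c + v * I) * y) * cexp ((c + v * I) ^ 2) =
      cexp ((-1) * (v : ℂ) ^ 2 + (2 * c * I - y * I) * v + (c ^ 2 - c * y)) := by
    intro v
    rw [← Complex.exp_add]
    congr 1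
    linear_combination ((v : ℂ) ^ 2) * I_sq
  simp_rw [h]
  rw [integral_cexp_quadratic (by norm_num)]
  have e1 : ((Real.pi : ℂ) / -(-1)) ^ (1 / 2 : ℂ) = ((Real.sqrt Real.pi : ℝ) : ℂ) := by
    rw [Real.sqrt_eq_rpow, Complex.ofReal_cpow Real.pi_pos.le]
    norm_num
  rw [e1]
  push_cast
  congr 2
  linear_combination (-((2 * (c : ℂ) - y) ^ 2) / (4 * (-1))) * I_sq

theorem mellin_int (c : ℝ) (hc : 0 < c) (L : ℝ) :
    Integrable (fun v : ℝ => cexp (-(c + v * I) * L) * cexp ((c + v * I) ^ 2) / (c + v * I)) := by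
  have hne : ∀ v : ℝ, (c + v * I : ℂ) ≠ 0 := by
    intro v h
    have := congrArg Complex.re h
    simp at this
    exact hc.ne' this
  have hb : Integrable (fun v : ℝ => cexp (-(c + v * I) * L) * cexp ((c + v * I) ^ 2)) := by
    have := integrable_cexp_quadratic' (b := -1) (by norm_num) (2 * c * I - L * I)
      (c ^ 2 - c * L)
    refine this.congr (Filter.Eventually.of_forall fun v => ?_)
    simp only
    rw [← Complex.exp_add]
    congr 1
    linear_combination (-(v : ℂ) ^ 2) * I_sq
  refine (hb.norm.const_mul (1 / c)).mono' ?_ (Filter.Eventually.of_forall fun v => ?_)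
  · refine Continuous.aestronglyMeasurable ?_
    exact Continuous.div (by fun_prop) (by fun_prop) hne
  · rw [norm_div]
    have h1 : c ≤ ‖(c + v * I : ℂ)‖ := by
      have := Complex.abs_re_le_norm (c + v * I : ℂ)
      simp at this
      exact le_trans (le_abs_self c) this
    calc ‖cexp (-(c + v * I) * L) * cexp ((c + v * I) ^ 2)‖ / ‖(c + v * I : ℂ)‖
        ≤ ‖cexp (-(c + v * I) * L) * cexp ((c + v * I) ^ 2)‖ / c :=
          div_le_div_of_nonneg_left (norm_nonneg _) hc h1
      _ = 1 / c * ‖cexp (-(c + v * I) * L) * cexp ((c + v * I) ^ 2)‖ := by ring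

theorem mellin_val (c : ℝ) (hc : 0 < c) (L : ℝ) :
    ∫ v : ℝ, cexp (-(c + v * I) * L) * cexp ((c + v * I) ^ 2) / (c + v * I) =
      ((Real.sqrt Real.pi * ∫ y in Ioi L, Real.exp (-(y ^ 2 / 4)) : ℝ) : ℂ) := by
  have hne : ∀ v : ℝ, (c + v * I : ℂ) ≠ 0 := by
    intro v h
    have := congrArg Complex.re h
    simp at this
    exact hc.ne' this
  have hin : ∀ v : ℝ, ∫ s in Ioi (0 : ℝ), cexp (-(c + v * I) * s) = 1 / (c + v * I) := by
    intro v
    rw [integral_exp_mul_complex_Ioi (by simpa using hc)]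
    have h0 := hne v
    simp only [ofReal_zero, mul_zero, Complex.exp_zero]
    rw [neg_div_neg_eq]
  have hprod : Integrable (Function.uncurry fun (s v : ℝ) =>
      cexp (-(c + v * I) * (L + s : ℝ)) * cexp ((c + v * I) ^ 2))
      ((volume.restrict (Ioi (0 : ℝ))).prod volume) := by
    have h1 : IntegrableOn (fun s : ℝ => Real.exp (-c * s)) (Ioi 0) := by
      have := exp_neg_integrableOn_Ioi 0 hc
      exact this
    have h2 : Integrable (fun v : ℝ => cexp (-(c + v * I) * L) * cexp ((c + v * I) ^ 2)) := by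
      have := integrable_cexp_quadratic' (b := -1) (by norm_num) (2 * c * I - L * I)
        (c ^ 2 - c * L)
      refine this.congr (Filter.Eventually.of_forall fun v => ?_)
      simp only
      rw [← Complex.exp_add]
      congr 1
      linear_combination (-(v : ℂ) ^ 2) * I_sq
    have h3 := Integrable.mul_prod h1 h2.norm
    refine h3.mono' ?_ (Filter.Eventually.of_forall fun z => ?_)
    · refine Continuous.aestronglyMeasurable ?_
      unfold Function.uncurry
      fun_prop
    · rcases z with ⟨s, v⟩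
      simp only [Function.uncurry]
      rw [norm_mul, norm_mul]
      rw [← mul_assoc]
      refine mul_le_mul_of_nonneg_right (le_of_eq ?_) (norm_nonneg _)
      rw [Complex.norm_exp, Complex.norm_exp, ← Real.exp_add]
      congr 1
      simp
      ring
  have hswap := integral_integral_swap hprod
  have hL : ∀ s : ℝ, (∫ v : ℝ, cexp (-(c + v * I) * (L + s : ℝ)) * cexp ((c + v * I) ^ 2)) =
      ((Real.sqrt Real.pi * Real.exp (-((L + s) ^ 2 / 4)) : ℝ) : ℂ) := fun s =>
    inner_gauss c (L + s)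
  have hR : ∀ v : ℝ, (∫ s in Ioi (0 : ℝ), cexp (-(c + v * I) * (L + s : ℝ)) *
      cexp ((c + v * I) ^ 2)) =
        cexp (-(c + v * I) * L) * cexp ((c + v * I) ^ 2) / (c + v * I) := by
    intro v
    have : ∀ s : ℝ, cexp (-(c + v * I) * (L + s : ℝ)) * cexp ((c + v * I) ^ 2) =
        (cexp (-(c + v * I) * L) * cexp ((c + v * I) ^ 2)) * cexp (-(c + v * I) * s) := by
      intro s
      have h1 : cexp (-(c + v * I) * (L + s : ℝ)) =
          cexp (-(c + v * I) * L) * cexp (-(c + v * I) * s) := by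
        rw [← Complex.exp_add]
        congr 1
        push_cast
        ring
      rw [h1]
      ring
    simp_rw [this]
    rw [integral_const_mul, hin v]
    ring
  simp_rw [hL, hR] at hswap
  rw [← hswap, integral_complex_ofReal, integral_const_mul]
  congr 2
  have e1 : ∫ s in Ioi (0 : ℝ), Real.exp (-((L + s) ^ 2 / 4)) =
      ∫ s : ℝ, (Ioi L).indicator (fun y => Real.exp (-(y ^ 2 / 4))) (L + s) := by
    rw [← integral_indicator measurableSet_Ioi]
    refine integral_congr_ae (Filter.Eventually.of_forall fun s => ?_)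
    simp only [indicator, mem_Ioi, lt_add_iff_pos_right]
  rw [e1, integral_add_left_eq_self, integral_indicator measurableSet_Ioi]

theorem vv : T_VV := by
  refine ⟨fun x _ => ⟨V_nonneg x, V_le_one x⟩, V_anti, V_cont, V_decay, fun c x hc hx => ?_⟩
  refine ⟨mellin_int c hc (Real.log x), ?_⟩
  rw [mellin_val c hc (Real.log x)]
  unfold V
  rw [← Complex.ofReal_mul]
  congr 1
  have hp := spi_pos
  have hs : Real.sqrt Real.pi * Real.sqrt Real.pi = Real.pi := Real.mul_self_sqrt Real.pi_pos.le
  have hpi := Real.pi_pos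
  rw [← mul_assoc]
  congr 1
  field_simp
  nlinarith [hs]

end Pool.Agent.H2.PZ
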