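import Pool.Agent.H2.PZ.CV
import Pool.Agent.H33.LI.PB
import Pool.Agent.H15.LI.LF

/-!
# Gaussian average of `L` (module GL)
-/

set_option autoImplicit false

open Complex MeasureTheory Set

namespace Pool.Agent.H2.PZ

open Pool.Agent.H28.MZ
open Pool.Agent.H23.GLH (PrimChar)

theorem polyL : Pool.Agent.H74.LI.T_poly := Pool.Agent.H33.LI.pb Pool.Agent.H15.LI.lf

theorem co_le (π : PrimChar) (n : ℕ) : ‖co π n‖ ≤ 1 := by
  have := π.q_ne
  unfold co
  split_ifs
  · simp
  · exact DirichletCharacter.norm_le_one π.χ _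

theorem co_zero (π : PrimChar) : co π 0 = 0 := by
  simp [co]

theorem L_hasSum (π : PrimChar) {w : ℂ} (hw : 1 < w.re) :
    HasSum (fun n : ℕ => co π n * (n : ℂ) ^ (-w)) (π.L w) := by
  have := π.q_ne
  have hL : π.L w = LSeries (fun n => π.χ n) w := by
    unfold PrimChar.L
    exact DirichletCharacter.LFunction_eq_LSeries π.χ hw
  have hsum : LSeriesSummable (fun n => π.χ n) w :=
    DirichletCharacter.LSeriesSummable_of_one_lt_re π.χ hw
  have h := hsum.hasSum
  rw [hL, LSeries]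
  have e : (fun n : ℕ => co π n * (n : ℂ) ^ (-w)) = LSeries.term (fun n => π.χ n) w := by
    funext n
    rcases Nat.eq_zero_or_pos n with rfl | hpos
    · rw [co_zero, zero_mul, LSeries.term_zero]
    · rw [LSeries.term_of_ne_zero (by omega)]
      unfold co
      rw [if_neg (by omega), Complex.cpow_neg, div_eq_mul_inv]
  rw [e]
  exact h

/-- `∑ n^{-5/4}` -/
noncomputable def ZZ : ℝ := ∑' n : ℕ, (n : ℝ) ^ (-(5 / 4) : ℝ)

theorem ZZ_summable : Summable fun n : ℕ => (n : ℝ) ^ (-(5 / 4) : ℝ) :=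
  Real.summable_nat_rpow.2 (by norm_num)

theorem ZZ_nonneg : 0 ≤ ZZ := tsum_nonneg fun n => by positivity

theorem term_le' (π : PrimChar) {w : ℂ} (hw : 5 / 4 ≤ w.re) (n : ℕ) :
    ‖co π n * (n : ℂ) ^ (-w)‖ ≤ (n : ℝ) ^ (-(5 / 4) : ℝ) := by
  rcases Nat.eq_zero_or_pos n with rfl | hpos
  · rw [co_zero, zero_mul, norm_zero]
    positivity
  · have h1 : (1 : ℝ) ≤ n := by exact_mod_cast hpos
    rw [norm_mul, Complex.norm_natCast_cpow_of_pos hpos, Complex.neg_re]
    calc ‖co π n‖ * (n : ℝ) ^ (-w.re) ≤ 1 * (n : ℝ) ^ (-w.re) :=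
          mul_le_mul_of_nonneg_right (co_le π n) (by positivity)
      _ = (n : ℝ) ^ (-w.re) := one_mul _
      _ ≤ (n : ℝ) ^ (-(5 / 4) : ℝ) := Real.rpow_le_rpow_of_exponent_le h1 (by linarith)

theorem L_le (π : PrimChar) {w : ℂ} (hw : 5 / 4 ≤ w.re) : ‖π.L w‖ ≤ ZZ := by
  rw [← (L_hasSum π (by linarith : 1 < w.re)).tsum_eq]
  exact tsum_of_norm_bounded ZZ_summable.hasSum (term_le' π hw)

/-- the weight on the line -/
noncomputable def E0 (H u y t : ℝ) : ℂ :=
  cexp ((1 + I * (t - u)) ^ 2 / H ^ 2) * cexp ((1 + t * I) * y)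

theorem E0_norm (H u y t : ℝ) : ‖E0 H u y t‖ =
    Real.exp (1 / H ^ 2) * Real.exp (-((t - u) / H) ^ 2) * Real.exp y := by
  unfold E0
  rw [norm_mul, Complex.norm_exp, Complex.norm_exp]
  have h1 : ((1 + I * ((t : ℂ) - u)) ^ 2 / (H : ℂ) ^ 2).re = 1 / H ^ 2 + -((t - u) / H) ^ 2 := by
    have : (1 + I * ((t : ℂ) - u)) ^ 2 / (H : ℂ) ^ 2 =
        (((1 - (t - u) ^ 2) / H ^ 2 : ℝ) : ℂ) + ((2 * (t - u) / H ^ 2 : ℝ) : ℂ) * I := by
      push_cast
      have : (1 + I * ((t : ℂ) - u)) ^ 2 = (1 - (t - u) ^ 2) + 2 * (t - u) * I := by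
        linear_combination (((t : ℂ) - u) ^ 2) * I_sq
      rw [this]
      ring
    rw [this]
    simp only [add_re, ofReal_re, mul_re, I_re, mul_zero, ofReal_im, I_im, mul_one, sub_self,
      add_zero]
    rw [div_pow]
    ring
  have h2 : ((1 + (t : ℂ) * I) * y).re = y := by simp
  rw [h1, h2, Real.exp_add]

theorem E0_cont (H u y : ℝ) : Continuous (E0 H u y) := by
  unfold E0
  fun_prop

theorem shift_gd (H u t : ℝ) (hH : 0 < H) : Real.exp (-((t - u) / H) ^ 2) =
    Real.sqrt Real.pi * H * gd H (t - u) := by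
  unfold gd
  have hs : 0 < Real.sqrt Real.pi := Real.sqrt_pos.2 Real.pi_pos
  field_simp

theorem E0_int {H : ℝ} (hH : 0 < H) (u y : ℝ) : Integrable (E0 H u y) := by
  have h : Integrable fun t => Real.exp (1 / H ^ 2) *
      Real.exp (-((t - u) / H) ^ 2) * Real.exp y := by
    refine Integrable.mul_const (Integrable.const_mul ?_ _) _
    have := ((gd_int hH).comp_sub_right u).const_mul (Real.sqrt Real.pi * H)
    refine this.congr (Filter.Eventually.of_forall fun t => ?_)
    exact (shift_gd H u t hH).symm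
  refine h.mono' (E0_cont H u y).aestronglyMeasurable (Filter.Eventually.of_forall fun t => ?_)
  rw [E0_norm]

theorem natcpow_cont (a : ℝ) (m : ℕ) (hm : 0 < m) :
    Continuous fun t : ℝ => (m : ℂ) ^ (-(a + 1 + t * I)) := by
  have h : (m : ℂ) ≠ 0 := by exact_mod_cast hm.ne'
  refine Continuous.const_cpow (by fun_prop) (Or.inl h)

/-- the integral of one term -/
theorem term_integral {H : ℝ} (hH : 0 < H) (a u x : ℝ) (m : ℕ) (hm : 0 < m) :
    ∫ t : ℝ, (m : ℂ) ^ (-(a + 1 + t * I)) * E0 H u (Real.log x) t =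
      ((Real.sqrt Real.pi * H : ℝ) : ℂ) * gf a H u x m := by
  have hm' : (m : ℂ) ≠ 0 := by exact_mod_cast hm.ne'
  have hmr : (0 : ℝ) < m := by exact_mod_cast hm
  have hHc : (H : ℂ) ≠ 0 := by exact_mod_cast hH.ne'
  set y := Real.log x
  set l := Real.log m with hl
  have hlog : Complex.log (m : ℂ) = (l : ℂ) := by
    rw [hl, Complex.ofReal_log hmr.le]
    simp
  have e : ∀ t : ℝ, (m : ℂ) ^ (-(a + 1 + t * I)) * E0 H u y t =
      cexp ((-(1 / (H : ℂ) ^ 2)) * (t : ℂ) ^ 2 +
        ((2 * u + 2 * I) / (H : ℂ) ^ 2 + I * (y - l)) * t +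
        ((1 - u ^ 2 - 2 * I * u) / (H : ℂ) ^ 2 + (y - l) - a * l)) := by
    intro t
    unfold E0
    rw [Complex.cpow_def_of_ne_zero hm', hlog, ← Complex.exp_add, ← Complex.exp_add]
    congr 1
    field_simp
    linear_combination ((t - u : ℂ) ^ 2) * I_sq
  simp_rw [e]
  rw [integral_cexp_quadratic]
  · have e1 : ((Real.pi : ℂ) / -(-(1 / (H : ℂ) ^ 2))) ^ (1 / 2 : ℂ) =
        ((Real.sqrt Real.pi * H : ℝ) : ℂ) := by
      have : ((Real.pi : ℂ) / -(-(1 / (H : ℂ) ^ 2))) = ((Real.pi * H ^ 2 : ℝ) : ℂ) := by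
        push_cast
        field_simp
      rw [this]
      have h2 : Real.sqrt Real.pi * H = (Real.pi * H ^ 2) ^ (1 / 2 : ℝ) := by
        rw [← Real.sqrt_eq_rpow, Real.sqrt_mul Real.pi_pos.le, Real.sqrt_sq hH.le]
      rw [h2, Complex.ofReal_cpow (by positivity)]
      norm_num
    rw [e1]
    congr 1
    unfold gf ei
    rw [Real.rpow_def_of_pos hmr, ← Real.exp_add, Complex.ofReal_exp, ← Complex.exp_add, ← hl]
    congr 1
    push_cast
    field_simp
    ring_nf
    simp only [I_sq]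
    ring
  · have : (-(1 / (H : ℂ) ^ 2)) = ((-(1 / H ^ 2) : ℝ) : ℂ) := by push_cast; ring
    rw [this, Complex.ofReal_re]
    have : 0 < 1 / H ^ 2 := by positivity
    linarith

/-- `Sg` as an integral over the line -/
theorem Sg_eq (π : PrimChar) {H a : ℝ} (hH : 0 < H) (ha : 1 / 4 ≤ a) (u x : ℝ) :
    Integrable (fun t : ℝ => π.L (a + 1 + t * I) * E0 H u (Real.log x) t) ∧
    ((Real.sqrt Real.pi * H : ℝ) : ℂ) * Sg π a H u x =
      ∫ t : ℝ, π.L (a + 1 + t * I) * E0 H u (Real.log x) t := by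
  have hre : ∀ t : ℝ, ((a : ℂ) + 1 + t * I).re = a + 1 := by
    intro t
    simp
  set F : ℕ → ℝ → ℂ := fun m t => co π m * ((m : ℂ) ^ (-((a : ℂ) + 1 + t * I)) *
    E0 H u (Real.log x) t) with hF
  have hE := E0_int hH u (Real.log x)
  have hFc : ∀ m, Continuous (F m) := by
    intro m
    rcases Nat.eq_zero_or_pos m with rfl | hm
    · simp only [hF, co_zero, zero_mul]
      exact continuous_const
    · exact continuous_const.mul ((natcpow_cont a m hm).mul (E0_cont _ _ _))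
  have hFb : ∀ m t, ‖F m t‖ ≤ (m : ℝ) ^ (-(5 / 4) : ℝ) * ‖E0 H u (Real.log x) t‖ := by
    intro m t
    simp only [hF]
    rw [← mul_assoc, norm_mul]
    refine mul_le_mul_of_nonneg_right ?_ (norm_nonneg _)
    exact term_le' π (by rw [hre]; linarith) m
  have hFi : ∀ m, Integrable (F m) := fun m =>
    (hE.norm.const_mul _).mono' (hFc m).aestronglyMeasurable
      (Filter.Eventually.of_forall (hFb m))
  have hS : Summable fun m => ∫ t, ‖F m t‖ := by
    refine Summable.of_nonneg_of_le (fun m => integral_nonneg fun t => norm_nonneg _) (fun m => ?_)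
      (ZZ_summable.mul_right (∫ t, ‖E0 H u (Real.log x) t‖))
    rw [← integral_const_mul]
    exact integral_mono (hFi m).norm (hE.norm.const_mul _) (hFb m)
  have hmain := hasSum_integral_of_summable_integral_norm hFi hS
  have hL : ∀ t : ℝ, ∑' m, F m t = π.L (a + 1 + t * I) * E0 H u (Real.log x) t := by
    intro t
    have h1 := (L_hasSum π (w := (a : ℂ) + 1 + t * I) (by rw [hre]; linarith)).mul_right
      (E0 H u (Real.log x) t)
    rw [← h1.tsum_eq]
    refine tsum_congr fun m => ?_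
    simp only [hF]
    ring
  simp_rw [hL] at hmain
  have hmeas : AEStronglyMeasurable
      (fun t : ℝ => π.L (a + 1 + t * I) * E0 H u (Real.log x) t) volume := by
    have h2 : ∀ t : ℝ, HasSum (fun m => F m t) (π.L (a + 1 + t * I) * E0 H u (Real.log x) t) := by
      intro t
      rw [← hL t]
      refine Summable.hasSum ?_
      refine Summable.of_norm_bounded (ZZ_summable.mul_right ‖E0 H u (Real.log x) t‖) fun m => ?_
      exact hFb m t
    refine aestronglyMeasurable_of_tendsto_ae Filter.atTop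
      (f := fun (s : Finset ℕ) (t : ℝ) => ∑ m ∈ s, F m t) (fun s => ?_)
      (Filter.Eventually.of_forall fun t => h2 t)
    exact (continuous_finsetSum s fun m _ => hFc m).aestronglyMeasurable
  refine ⟨?_, ?_⟩
  · refine (hE.norm.const_mul ZZ).mono' hmeas (Filter.Eventually.of_forall fun t => ?_)
    rw [norm_mul]
    exact mul_le_mul_of_nonneg_right (L_le π (by rw [hre]; linarith)) (norm_nonneg _)
  · rw [← hmain.tsum_eq]
    unfold Sg
    rw [← tsum_mul_left]
    refine tsum_congr fun m => ?_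
    simp only [hF]
    rw [integral_const_mul]
    rcases Nat.eq_zero_or_pos m with rfl | hm
    · rw [co_zero]
      simp
    · rw [term_integral hH a u x m hm]
      ring

/-- the function of the contour integral -/
noncomputable def KF (π : PrimChar) (H a u y : ℝ) (s : ℂ) : ℂ :=
  cexp ((s - a - I * u) ^ 2 / H ^ 2) * π.L s * cexp ((s - a) * y)

theorem KF_right (π : PrimChar) (H a u y t : ℝ) :
    KF π H a u y ((a + 1 : ℝ) + t * I) = π.L (a + 1 + t * I) * E0 H u y t := by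
  unfold KF E0
  push_cast
  rw [show ((a : ℂ) + 1 + t * I - a - I * u) = 1 + I * (t - u) by ring,
    show ((a : ℂ) + 1 + t * I - a) = 1 + t * I by ring]
  ring

theorem KF_left (π : PrimChar) (H a u y t : ℝ) :
    KF π H a u y (a + t * I) =
      ((Real.exp (-((t - u) / H) ^ 2) : ℝ) : ℂ) * (π.L (a + t * I) * ei (t * y)) := by
  unfold KF ei
  rw [show ((a : ℂ) + t * I - a - I * u) = I * (t - u) by ring,
    show ((a : ℂ) + t * I - a) = t * I by ring]
  have e1 : cexp ((I * ((t : ℂ) - u)) ^ 2 / (H : ℂ) ^ 2) =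
      ((Real.exp (-((t - u) / H) ^ 2) : ℝ) : ℂ) := by
    rw [Complex.ofReal_exp]
    congr 1
    push_cast
    rw [mul_pow, I_sq, div_pow]
    ring
  rw [e1]
  have e2 : cexp ((t : ℂ) * I * y) = cexp (((t * y : ℝ) : ℂ) * I) := by
    congr 1
    push_cast
    ring
  rw [e2]
  ring

theorem KF_diff (π : PrimChar) (H a u y : ℝ) {s : ℂ} (hs : 0 < s.im) :
    DifferentiableAt ℂ (KF π H a u y) s := by
  have h1 : s ≠ 1 := by
    rintro rfl
    simp at hs
  have := π.q_ne
  have hL : DifferentiableAt ℂ π.L s :=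
    DirichletCharacter.differentiableAt_LFunction π.χ s (Or.inl h1)
  unfold KF
  refine DifferentiableAt.mul (DifferentiableAt.mul ?_ hL) ?_
  · fun_prop
  · fun_prop

theorem KF_bound (π : PrimChar) {C : ℝ} (hC : 0 < C)
    (hp : ∀ w : ℂ, -0 ≤ w.re → 1 ≤ |w.im| → ‖π.L w‖ ≤ C * (1 + |w.im|) ^ C)
    {H a u D x B : ℝ} (hH : 0 < H) (ha : 0 ≤ a) (hx : 0 < x) (hD : 0 ≤ D)
    {X v : ℝ} (hX1 : a ≤ X) (hX2 : X ≤ a + 1) (hv : v = u - D ∨ v = u + D) (hv1 : 1 ≤ v)
    (hvB : v ≤ B) :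
    ‖KF π H a u (Real.log x) (X + v * I)‖ ≤
      Real.exp (1 / H ^ 2) * Real.exp (-(D / H) ^ 2) * (C * (1 + B) ^ C) * (1 + x) := by
  unfold KF
  rw [norm_mul, norm_mul, Complex.norm_exp, Complex.norm_exp]
  have h1 : (((X : ℂ) + v * I - a - I * u) ^ 2 / (H : ℂ) ^ 2).re =
      ((X - a) ^ 2 - D ^ 2) / H ^ 2 := by
    have hv2 : (v - u) ^ 2 = D ^ 2 := by
      rcases hv with rfl | rfl <;> ring
    have : ((X : ℂ) + v * I - a - I * u) ^ 2 / (H : ℂ) ^ 2 =
        (((((X - a) ^ 2 - (v - u) ^ 2) / H ^ 2 : ℝ)) : ℂ) +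
          ((2 * (X - a) * (v - u) / H ^ 2 : ℝ) : ℂ) * I := by
      push_cast
      have : ((X : ℂ) + v * I - a - I * u) ^ 2 = ((X - a) ^ 2 - (v - u) ^ 2) +
          2 * (X - a) * (v - u) * I := by
        linear_combination (((v : ℂ) - u) ^ 2) * I_sq
      rw [this]
      ring
    rw [this, ← hv2]
    simp only [add_re, ofReal_re, mul_re, I_re, mul_zero, ofReal_im, I_im, mul_one, sub_self,
      add_zero]
  have h2 : (((X : ℂ) + v * I - a) * (Real.log x : ℝ)).re = (X - a) * Real.log x := by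
    simp
  rw [h1, h2]
  have h3 : Real.exp (((X - a) ^ 2 - D ^ 2) / H ^ 2) ≤
      Real.exp (1 / H ^ 2) * Real.exp (-(D / H) ^ 2) := by
    rw [← Real.exp_add]
    refine Real.exp_le_exp.2 ?_
    rw [div_pow, sub_div]
    have : (X - a) ^ 2 / H ^ 2 ≤ 1 / H ^ 2 := by
      refine div_le_div_of_nonneg_right ?_ (by positivity)
      have : 0 ≤ X - a := by linarith
      nlinarith
    linarith
  have h4 : ‖π.L (X + v * I)‖ ≤ C * (1 + B) ^ C := by
    have him : ((X : ℂ) + v * I).im = v := by simp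
    have hre : ((X : ℂ) + v * I).re = X := by simp
    have hv0 : |v| = v := abs_of_nonneg (by linarith)
    have := hp (X + v * I) (by rw [hre, neg_zero]; linarith) (by rw [him, hv0]; exact hv1)
    rw [him, hv0] at this
    refine this.trans ?_
    refine mul_le_mul_of_nonneg_left ?_ hC.le
    exact Real.rpow_le_rpow (by linarith) (by linarith) hC.le
  have h5 : Real.exp ((X - a) * Real.log x) ≤ 1 + x := by
    rcases le_total x 1 with h | h
    · have : Real.log x ≤ 0 := Real.log_nonpos hx.le h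
      have h6 : (X - a) * Real.log x ≤ 0 := mul_nonpos_of_nonneg_of_nonpos (by linarith) this
      have := Real.exp_le_one_iff.2 h6
      linarith
    · have h0 : 0 ≤ Real.log x := Real.log_nonneg h
      have h6 : (X - a) * Real.log x ≤ Real.log x := by nlinarith
      have := Real.exp_le_exp.2 h6
      rw [Real.exp_log hx] at this
      linarith
  have hB0 : 0 ≤ 1 + B := by linarith
  gcongr

theorem contour (π : PrimChar) {C : ℝ} (hC : 0 < C)
    (hp : ∀ w : ℂ, -0 ≤ w.re → 1 ≤ |w.im| → ‖π.L w‖ ≤ C * (1 + |w.im|) ^ C)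
    {H a u D x : ℝ} (hH : 0 < H) (ha : 0 ≤ a) (hx : 0 < x) (hD : 0 ≤ D) (hu : 1 ≤ u - D) :
    ‖(∫ t in (u - D)..(u + D), ((Real.exp (-((t - u) / H) ^ 2) : ℝ) : ℂ) *
          (π.L (a + t * I) * ei (t * Real.log x))) -
        ∫ t in (u - D)..(u + D), π.L (a + 1 + t * I) * E0 H u (Real.log x) t‖ ≤
      2 * (Real.exp (1 / H ^ 2) * Real.exp (-(D / H) ^ 2) * (C * (1 + (u + D)) ^ C) *
        (1 + x)) := by
  have hrect := Complex.integral_boundary_rect_eq_zero_of_differentiableOn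
    (KF π H a u (Real.log x)) (a + (u - D : ℝ) * I) ((a + 1 : ℝ) + (u + D : ℝ) * I) (by
      intro s hs
      refine (KF_diff π H a u _ ?_).differentiableWithinAt
      have h2 := hs.2
      simp only [mem_preimage, add_im, ofReal_im, mul_im, ofReal_re, I_im, mul_one, I_re, mul_zero,
        add_zero, zero_add] at h2
      rw [uIcc_of_le (by linarith)] at h2
      linarith [h2.1])
  have r1 : ((a : ℂ) + (u - D : ℝ) * I).re = a := by simp
  have r2 : ((a : ℂ) + (u - D : ℝ) * I).im = u - D := by simp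
  have r3 : (((a + 1 : ℝ) : ℂ) + (u + D : ℝ) * I).re = a + 1 := by simp
  have r4 : (((a + 1 : ℝ) : ℂ) + (u + D : ℝ) * I).im = u + D := by simp
  rw [r1, r2, r3, r4] at hrect
  simp_rw [KF_right, KF_left] at hrect
  set A1 := ∫ x_1 in a..(a + 1), KF π H a u (Real.log x) (x_1 + (u - D : ℝ) * I) with hA1
  set A2 := ∫ x_1 in a..(a + 1), KF π H a u (Real.log x) (x_1 + (u + D : ℝ) * I) with hA2
  set R := ∫ t in (u - D)..(u + D), π.L (a + 1 + t * I) * E0 H u (Real.log x) t with hR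
  set L := ∫ t in (u - D)..(u + D), ((Real.exp (-((t - u) / H) ^ 2) : ℝ) : ℂ) *
          (π.L (a + t * I) * ei (t * Real.log x)) with hL
  simp only [smul_eq_mul] at hrect
  have e : L - R = -I * (A1 - A2) := by
    linear_combination I * hrect + (L - R) * I_sq
  set B := Real.exp (1 / H ^ 2) * Real.exp (-(D / H) ^ 2) * (C * (1 + (u + D)) ^ C) *
        (1 + x) with hB
  have b1 : ‖A1‖ ≤ B * |a + 1 - a| := by
    refine intervalIntegral.norm_integral_le_of_norm_le_const fun X hX => ?_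
    rw [uIoc_of_le (by linarith)] at hX
    exact KF_bound π hC hp hH ha hx hD hX.1.le hX.2 (Or.inl rfl) hu (by linarith)
  have b2 : ‖A2‖ ≤ B * |a + 1 - a| := by
    refine intervalIntegral.norm_integral_le_of_norm_le_const fun X hX => ?_
    rw [uIoc_of_le (by linarith)] at hX
    exact KF_bound π hC hp hH ha hx hD hX.1.le hX.2 (Or.inr rfl) (by linarith) le_rfl
  rw [show a + 1 - a = 1 by ring, abs_one, mul_one] at b1 b2
  rw [e, norm_mul, norm_neg, Complex.norm_I, one_mul]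
  calc ‖A1 - A2‖ ≤ ‖A1‖ + ‖A2‖ := norm_sub_le _ _
    _ ≤ 2 * B := by linarith

theorem tail_bound (π : PrimChar) {H a u D x : ℝ} (hH : 0 < H) (ha : 1 / 4 ≤ a) (hx : 0 < x)
    (hD : 0 ≤ D) :
    ‖(∫ t : ℝ, π.L (a + 1 + t * I) * E0 H u (Real.log x) t) -
        ∫ t in (u - D)..(u + D), π.L (a + 1 + t * I) * E0 H u (Real.log x) t‖ ≤
      ZZ * Real.exp (1 / H ^ 2) * x * (Real.sqrt Real.pi * H) *
        (2 * Real.exp (-(D / H) ^ 2)) := by
  have hi := (Sg_eq π hH ha u x).1
  have hs : 0 < Real.sqrt Real.pi := Real.sqrt_pos.2 Real.pi_pos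
  have hre : ∀ t : ℝ, ((a : ℂ) + 1 + t * I).re = a + 1 := by
    intro t
    simp
  have hc := integral_add_compl (measurableSet_Ioc (a := u - D) (b := u + D)) hi
  rw [intervalIntegral.integral_of_le (by linarith), ← hc, add_sub_cancel_left]
  have gi : Integrable fun t => gd H (t - u) := (gd_int hH).comp_sub_right u
  have hb : ∀ t : ℝ, ‖π.L (a + 1 + t * I) * E0 H u (Real.log x) t‖ ≤
      ZZ * Real.exp (1 / H ^ 2) * x * (Real.sqrt Real.pi * H) * gd H (t - u) := by
    intro t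
    rw [norm_mul, E0_norm, Real.exp_log hx, shift_gd H u t hH]
    calc ‖π.L (a + 1 + t * I)‖ * (Real.exp (1 / H ^ 2) * (Real.sqrt Real.pi * H * gd H (t - u)) * x)
        ≤ ZZ * (Real.exp (1 / H ^ 2) * (Real.sqrt Real.pi * H * gd H (t - u)) * x) := by
          refine mul_le_mul_of_nonneg_right (L_le π (by rw [hre]; linarith)) ?_
          have := gd_nonneg hH (t - u)
          positivity
      _ = _ := by ring
  have hK : 0 ≤ ZZ * Real.exp (1 / H ^ 2) * x * (Real.sqrt Real.pi * H) := by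
    have := ZZ_nonneg
    positivity
  calc ‖∫ t in (Ioc (u - D) (u + D))ᶜ, π.L (a + 1 + t * I) * E0 H u (Real.log x) t‖
      ≤ ∫ t in (Ioc (u - D) (u + D))ᶜ,
          ZZ * Real.exp (1 / H ^ 2) * x * (Real.sqrt Real.pi * H) * gd H (t - u) :=
        norm_integral_le_of_norm_le (gi.const_mul _).integrableOn
          (Filter.Eventually.of_forall hb)
    _ = ZZ * Real.exp (1 / H ^ 2) * x * (Real.sqrt Real.pi * H) *
          (1 - ∫ v in (-D)..D, gd H v) := by
        rw [integral_const_mul]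
        congr 1
        have h1 := integral_add_compl (measurableSet_Ioc (a := u - D) (b := u + D)) gi
        have h0 : ∫ t : ℝ, gd H (t - u) = 1 := by
          rw [integral_sub_right_eq_self (gd H) u, gd_one hH]
        rw [h0] at h1
        have h2 := intervalIntegral.integral_comp_sub_right (a := u - D) (b := u + D) (gd H) u
        rw [intervalIntegral.integral_of_le (by linarith), show u - D - u = -D by ring,
          show u + D - u = D by ring] at h2
        linarith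
    _ ≤ _ := mul_le_mul_of_nonneg_left (gd_tail hH hD) hK

/-- an exponential beats every power -/
theorem beat (K s c e : ℝ) (hc : 0 < c) (he : 0 < e) : ∃ T₀ : ℝ, 1 ≤ T₀ ∧ ∀ T : ℝ, T₀ ≤ T →
    K * T ^ s * Real.exp (-(c * T ^ e)) ≤ 1 := by
  have h1 := tendsto_rpow_mul_exp_neg_mul_atTop_nhds_zero (s / e) c hc
  have h2 := h1.comp (tendsto_rpow_atTop he)
  have h3 := h2.const_mul K
  rw [mul_zero] at h3
  obtain ⟨T₁, hT₁⟩ := Filter.eventually_atTop.1 (h3.eventually (gt_mem_nhds one_pos))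
  refine ⟨max T₁ 1, le_max_right _ _, fun T hT => ?_⟩
  have hT0 : 0 < T := lt_of_lt_of_le one_pos ((le_max_right _ _).trans hT)
  have h4 := hT₁ T ((le_max_left _ _).trans hT)
  simp only [Function.comp] at h4
  rw [← Real.rpow_mul hT0.le, show e * (s / e) = s by field_simp] at h4
  rw [show -(c * T ^ e) = -c * T ^ e by ring, mul_assoc]
  exact h4.le

theorem gl : T_GL := by
  intro π ε A hε hε2 hA
  obtain ⟨C, hC, hp⟩ := polyL π 0
  have hZ := ZZ_nonneg
  obtain ⟨T₁, hT₁, hb⟩ := beat (2 * Real.exp 1 * (C * 4 ^ C) + 2 * Real.exp 1 * ZZ) (C + A)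
    (1 / 16) (2 * ε) (by norm_num) (by positivity)
  refine ⟨max T₁ 4, fun T u a x hT hu1 hu2 ha1 ha2 hx => ?_⟩
  have hT4 : 4 ≤ T := (le_max_right _ _).trans hT
  have hT0 : 0 < T := by linarith
  have hT1 : 1 ≤ T := by linarith
  set H : ℝ := T ^ (1 - ε) with hH
  have hH1 : 1 ≤ H := Real.one_le_rpow hT1 (by linarith)
  have hH0 : 0 < H := by linarith
  set D : ℝ := T / 4 with hD
  have hD0 : 0 ≤ D := by positivity
  have hs : 0 < Real.sqrt Real.pi := Real.sqrt_pos.2 Real.pi_pos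
  have hs1 : 1 ≤ Real.sqrt Real.pi := by
    rw [Real.one_le_sqrt]
    linarith [Real.pi_gt_three]
  have hDH : Real.exp (-(D / H) ^ 2) = Real.exp (-(1 / 16 * T ^ (2 * ε))) := by
    congr 2
    rw [hD, hH, div_pow, div_pow, ← Real.rpow_natCast (T ^ (1 - ε)), ← Real.rpow_mul hT0.le]
    have : T ^ 2 = T ^ (2 * ε) * T ^ ((1 - ε) * ((2 : ℕ) : ℝ)) := by
      rw [← Real.rpow_add hT0, ← Real.rpow_natCast]
      congr 1
      push_cast
      ring
    rw [this]
    have h0 : T ^ ((1 - ε) * ((2 : ℕ) : ℝ)) ≠ 0 := (Real.rpow_pos_of_pos hT0 _).ne'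
    field_simp
    norm_num
  have hH2 : Real.exp (1 / H ^ 2) ≤ Real.exp 1 := by
    refine Real.exp_le_exp.2 ?_
    rw [div_le_one (by positivity)]
    nlinarith
  have hc := contour π hC hp hH0 (by linarith : 0 ≤ a) hx hD0 (u := u) (by linarith)
  have ht := tail_bound π hH0 ha1 hx hD0 (u := u)
  have hSg := (Sg_eq π hH0 ha1 u x).2
  rw [← hSg] at ht
  set Lf := ∫ t in (u - D)..(u + D), ((Real.exp (-((t - u) / H) ^ 2) : ℝ) : ℂ) *
          (π.L (a + t * I) * ei (t * Real.log x)) with hLf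
  set R := ∫ t in (u - D)..(u + D), π.L (a + 1 + t * I) * E0 H u (Real.log x) t with hR
  have hGa : Ga H D u (fun t : ℝ => π.L (a + t * I) * ei (t * Real.log x)) =
      ((1 / (Real.sqrt Real.pi * H) : ℝ) : ℂ) * Lf := rfl
  have hp0 : 0 < Real.sqrt Real.pi * H := by positivity
  have hne : ((Real.sqrt Real.pi * H : ℝ) : ℂ) ≠ 0 := by exact_mod_cast hp0.ne'
  have e : Ga H D u (fun t : ℝ => π.L (a + t * I) * ei (t * Real.log x)) - Sg π a H u x =
      ((1 / (Real.sqrt Real.pi * H) : ℝ) : ℂ) * ((Lf - R) -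
        (((Real.sqrt Real.pi * H : ℝ) : ℂ) * Sg π a H u x - R)) := by
    rw [hGa]
    have h1 : ((1 / (Real.sqrt Real.pi * H) : ℝ) : ℂ) * ((Real.sqrt Real.pi * H : ℝ) : ℂ) = 1 := by
      rw [← Complex.ofReal_mul, one_div, inv_mul_cancel₀ hp0.ne', Complex.ofReal_one]
    linear_combination (Sg π a H u x) * h1
  rw [e, norm_mul, Complex.norm_of_nonneg (by positivity)]
  set X := Real.exp (-(1 / 16 * T ^ (2 * ε))) with hX
  have hX0 : 0 < X := Real.exp_pos _
  rw [hDH] at hc ht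
  have hc2 : ‖Lf - R‖ ≤ (2 * Real.exp 1 * (C * 4 ^ C) * T ^ C) * X * (1 + x) := by
    refine hc.trans ?_
    have h1 : (1 + (u + D)) ^ C ≤ 4 ^ C * T ^ C := by
      rw [← Real.mul_rpow (by norm_num) hT0.le]
      refine Real.rpow_le_rpow (by linarith) (by linarith) hC.le
    have h2 : 0 ≤ (1 + (u + D)) ^ C := Real.rpow_nonneg (by linarith) _
    calc 2 * (Real.exp (1 / H ^ 2) * X * (C * (1 + (u + D)) ^ C) * (1 + x))
        ≤ 2 * (Real.exp 1 * X * (C * (4 ^ C * T ^ C)) * (1 + x)) := by gcongr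
      _ = _ := by ring
  have ht2 : ‖((Real.sqrt Real.pi * H : ℝ) : ℂ) * Sg π a H u x - R‖ ≤
      (Real.sqrt Real.pi * H) * ((2 * Real.exp 1 * ZZ) * X * (1 + x)) := by
    refine ht.trans ?_
    calc ZZ * Real.exp (1 / H ^ 2) * x * (Real.sqrt Real.pi * H) * (2 * X)
        ≤ ZZ * Real.exp 1 * (1 + x) * (Real.sqrt Real.pi * H) * (2 * X) := by
          gcongr
          linarith
      _ = _ := by ring
  have h3 : 1 / (Real.sqrt Real.pi * H) ≤ 1 := by
    rw [div_le_one hp0]
    nlinarith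
  calc 1 / (Real.sqrt Real.pi * H) * ‖Lf - R - (((Real.sqrt Real.pi * H : ℝ) : ℂ) *
        Sg π a H u x - R)‖
      ≤ 1 / (Real.sqrt Real.pi * H) * (‖Lf - R‖ + ‖((Real.sqrt Real.pi * H : ℝ) : ℂ) *
        Sg π a H u x - R‖) := mul_le_mul_of_nonneg_left (norm_sub_le _ _) (by positivity)
    _ ≤ 1 / (Real.sqrt Real.pi * H) * ((2 * Real.exp 1 * (C * 4 ^ C) * T ^ C) * X * (1 + x) +
        (Real.sqrt Real.pi * H) * ((2 * Real.exp 1 * ZZ) * X * (1 + x))) :=
        mul_le_mul_of_nonneg_left (add_le_add hc2 ht2) (by positivity)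
    _ = 1 / (Real.sqrt Real.pi * H) * ((2 * Real.exp 1 * (C * 4 ^ C) * T ^ C) * X * (1 + x)) +
        (2 * Real.exp 1 * ZZ) * X * (1 + x) := by
        field_simp
    _ ≤ 1 * ((2 * Real.exp 1 * (C * 4 ^ C) * T ^ C) * X * (1 + x)) +
        (2 * Real.exp 1 * ZZ) * T ^ C * X * (1 + x) := by
        have h5 : 1 ≤ T ^ C := Real.one_le_rpow hT1 hC.le
        refine add_le_add (mul_le_mul_of_nonneg_right h3 (by positivity)) ?_
        have h6 : (2 * Real.exp 1 * ZZ) ≤ (2 * Real.exp 1 * ZZ) * T ^ C :=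
          le_mul_of_one_le_right (by positivity) h5
        gcongr
    _ = T ^ (-A) * (1 + x) * ((2 * Real.exp 1 * (C * 4 ^ C) + 2 * Real.exp 1 * ZZ) *
        T ^ (C + A) * X) := by
        have h7 : T ^ C = T ^ (-A) * T ^ (C + A) := by
          rw [← Real.rpow_add hT0]
          congr 1
          ring
        rw [h7]
        ring
    _ ≤ T ^ (-A) * (1 + x) * 1 := by
        refine mul_le_mul_of_nonneg_left ?_ (by positivity)
        exact hb T ((le_max_left _ _).trans hT)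
    _ = T ^ (-A) * (1 + x) := mul_one _

end Pool.Agent.H2.PZ
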