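import Pool.Agent.H2.PZ.MX

/-!
# From local Gaussian averages to the sine weight (module CV)
-/

set_option autoImplicit false

open Complex MeasureTheory Set

namespace Pool.Agent.H2.PZ

open Pool.Agent.H28.MZ

/-- the Gaussian density -/
noncomputable def gd (H v : ℝ) : ℝ := 1 / (Real.sqrt Real.pi * H) * Real.exp (-(v / H) ^ 2)

theorem gd_cont (H : ℝ) : Continuous (gd H) := by
  unfold gd
  fun_prop

theorem gd_nonneg {H : ℝ} (hH : 0 < H) (v : ℝ) : 0 ≤ gd H v := by
  unfold gd
  positivity

theorem gd_int {H : ℝ} (hH : 0 < H) : Integrable (gd H) := by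
  unfold gd
  refine Integrable.const_mul ?_ _
  have h := integrable_exp_neg_mul_sq (b := 1 / H ^ 2) (by positivity)
  refine h.congr (Filter.Eventually.of_forall fun v => ?_)
  simp only
  congr 1
  rw [div_pow]
  ring

theorem gd_one {H : ℝ} (hH : 0 < H) : ∫ v : ℝ, gd H v = 1 := by
  unfold gd
  rw [integral_const_mul]
  have h := integral_gaussian (1 / H ^ 2)
  have h2 : (fun v : ℝ => Real.exp (-(v / H) ^ 2)) =
      fun v : ℝ => Real.exp (-(1 / H ^ 2) * v ^ 2) := by
    funext v
    congr 1
    rw [div_pow]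
    ring
  have hs : 0 < Real.sqrt Real.pi := Real.sqrt_pos.2 Real.pi_pos
  rw [h2, h, show Real.pi / (1 / H ^ 2) = Real.pi * H ^ 2 by field_simp,
    Real.sqrt_mul Real.pi_pos.le, Real.sqrt_sq hH.le]
  field_simp

theorem gd_le_one {H D : ℝ} (hH : 0 < H) (hD : 0 ≤ D) : ∫ v in (-D)..D, gd H v ≤ 1 := by
  rw [intervalIntegral.integral_of_le (by linarith), ← gd_one hH]
  exact setIntegral_le_integral (gd_int hH) (Filter.Eventually.of_forall fun v => gd_nonneg hH v)

theorem gd_tail {H D : ℝ} (hH : 0 < H) (hD : 0 ≤ D) :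
    1 - ∫ v in (-D)..D, gd H v ≤ 2 * Real.exp (-(D / H) ^ 2) := by
  have hi := gd_int hH
  have e1 : 1 - ∫ v in (-D)..D, gd H v = ∫ v in (Ioc (-D) D)ᶜ, gd H v := by
    rw [intervalIntegral.integral_of_le (by linarith), ← gd_one hH]
    have := integral_add_compl (measurableSet_Ioc (a := -D) (b := D)) hi
    linarith
  have i1 : Integrable fun v => gd H (v - D) := hi.comp_sub_right D
  have i2 : Integrable fun v => gd H (v + D) := hi.comp_add_right D
  have hpos : ∀ v, 0 ≤ Real.exp (-(D / H) ^ 2) * (gd H (v - D) + gd H (v + D)) := fun v =>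
    mul_nonneg (Real.exp_pos _).le (add_nonneg (gd_nonneg hH _) (gd_nonneg hH _))
  rw [e1]
  calc ∫ v in (Ioc (-D) D)ᶜ, gd H v
      ≤ ∫ v in (Ioc (-D) D)ᶜ, Real.exp (-(D / H) ^ 2) * (gd H (v - D) + gd H (v + D)) := by
        refine setIntegral_mono_on hi.integrableOn ((i1.add i2).const_mul _).integrableOn
          measurableSet_Ioc.compl fun v hv => ?_
        have hgen : ∀ a b : ℝ, a ^ 2 + D ^ 2 ≤ b ^ 2 →
            gd H b ≤ Real.exp (-(D / H) ^ 2) * gd H a := by
          intro a b hab
          unfold gd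
          rw [← mul_assoc, mul_comm (Real.exp _) (1 / _), mul_assoc]
          refine mul_le_mul_of_nonneg_left ?_ (by positivity)
          rw [← Real.exp_add]
          refine Real.exp_le_exp.2 ?_
          rw [div_pow, div_pow, div_pow]
          have : (a ^ 2 + D ^ 2) / H ^ 2 ≤ b ^ 2 / H ^ 2 :=
            div_le_div_of_nonneg_right hab (by positivity)
          rw [add_div] at this
          linarith
        have hv' : v ≤ -D ∨ D < v := by
          by_contra hc
          push Not at hc
          exact hv ⟨hc.1, hc.2⟩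
        rcases hv' with hv' | hv'
        · have := hgen (v + D) v (by nlinarith)
          have h0 := mul_nonneg (Real.exp_pos (-(D / H) ^ 2)).le (gd_nonneg hH (v - D))
          rw [mul_add]
          linarith
        · have := hgen (v - D) v (by nlinarith)
          have h0 := mul_nonneg (Real.exp_pos (-(D / H) ^ 2)).le (gd_nonneg hH (v + D))
          rw [mul_add]
          linarith
    _ ≤ ∫ v, Real.exp (-(D / H) ^ 2) * (gd H (v - D) + gd H (v + D)) :=
        setIntegral_le_integral ((i1.add i2).const_mul _) (Filter.Eventually.of_forall hpos)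
    _ = 2 * Real.exp (-(D / H) ^ 2) := by
        rw [integral_const_mul, integral_add i1 i2, integral_sub_right_eq_self,
          integral_add_right_eq_self, gd_one hH]
        ring

theorem gd_abs {H D : ℝ} (hH : 0 < H) (hD : 0 ≤ D) :
    ∫ v in (-D)..D, |v| * gd H v ≤ H / Real.sqrt Real.pi := by
  have hs : 0 < Real.sqrt Real.pi := Real.sqrt_pos.2 Real.pi_pos
  have hc : Continuous fun v : ℝ => |v| * gd H v := continuous_abs.mul (gd_cont H)
  have h1 : ∫ v in (0 : ℝ)..D, |v| * gd H v ≤ H / (2 * Real.sqrt Real.pi) := by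
    have e : ∫ v in (0 : ℝ)..D, |v| * gd H v = ∫ v in (0 : ℝ)..D, v * gd H v := by
      refine intervalIntegral.integral_congr fun v hv => ?_
      rw [uIcc_of_le hD] at hv
      simp only [abs_of_nonneg hv.1]
    have hd : ∀ v ∈ uIcc 0 D, HasDerivAt (fun v => -(H / (2 * Real.sqrt Real.pi)) *
        Real.exp (-(v / H) ^ 2)) (v * gd H v) v := by
      intro v _
      have h2 : HasDerivAt (fun v : ℝ => -(v / H) ^ 2) (-(2 * (v / H) * (1 / H))) v := by
        have := (((hasDerivAt_id v).div_const H).pow 2).neg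
        refine this.congr_deriv ?_
        simp
      refine (h2.exp.const_mul _).congr_deriv ?_
      unfold gd
      field_simp
    rw [e, intervalIntegral.integral_eq_sub_of_hasDerivAt hd
      ((continuous_id.mul (gd_cont H)).intervalIntegrable _ _)]
    simp only [zero_div]
    have h3 : 0 ≤ H / (2 * Real.sqrt Real.pi) * Real.exp (-(D / H) ^ 2) := by positivity
    norm_num
    linarith
  have h2 : ∫ v in (-D)..0, |v| * gd H v = ∫ v in (0 : ℝ)..D, |v| * gd H v := by
    have := intervalIntegral.integral_comp_neg (a := 0) (b := D) fun v : ℝ => |v| * gd H v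
    rw [neg_zero] at this
    rw [← this]
    refine intervalIntegral.integral_congr fun v _ => ?_
    simp only [abs_neg]
    unfold gd
    rw [neg_div, neg_sq]
  rw [← intervalIntegral.integral_add_adjacent_intervals (hc.intervalIntegrable (-D) 0)
    (hc.intervalIntegrable 0 D), h2]
  have : H / Real.sqrt Real.pi = H / (2 * Real.sqrt Real.pi) + H / (2 * Real.sqrt Real.pi) := by
    field_simp
    ring
  linarith

/-- the sine weight extended by zero -/
noncomputable def sp (T x : ℝ) : ℝ := sn T (max T (min x (2 * T)))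

theorem sp_cont (T : ℝ) : Continuous (sp T) := by
  unfold sp
  exact (sn_cont T).comp (by fun_prop)

theorem sp_lip {T : ℝ} (hT : 0 < T) (x y : ℝ) : |sp T x - sp T y| ≤ Real.pi / T * |x - y| := by
  unfold sp
  refine (sn_lip hT _ _).trans (mul_le_mul_of_nonneg_left ?_ (by positivity))
  refine (abs_max_sub_max_le_max _ _ _ _).trans ?_
  rw [sub_self, abs_zero, max_eq_right (abs_nonneg _)]
  refine (abs_min_sub_min_le_max _ _ _ _).trans ?_
  rw [sub_self, abs_zero, max_eq_left (abs_nonneg _)]

theorem sp_eq {T x : ℝ} (h1 : T ≤ x) (h2 : x ≤ 2 * T) : sp T x = sn T x := by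
  unfold sp
  rw [min_eq_left h2, max_eq_right h1]

theorem sp_left {T x : ℝ} (hT : 0 < T) (h : x ≤ T) : sp T x = 0 := by
  unfold sp
  rw [min_eq_left (by linarith), max_eq_left h, sn_left]

theorem sp_right {T x : ℝ} (hT : 0 < T) (h : 2 * T ≤ x) : sp T x = 0 := by
  unfold sp
  rw [min_eq_right h, max_eq_right (by linarith), sn_right hT]

theorem split {T v : ℝ} (hT : 0 < T) (hv : |v| ≤ T / 4) {f : ℝ → ℂ}
    (hf : ContinuousOn f (Icc (T / 2) (3 * T))) :
    ∫ u in T..(2 * T), (sn T u : ℂ) * f (u + v) =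
      ∫ t in (T / 2)..(3 * T), (sp T (t - v) : ℂ) * f t := by
  have hv1 := (abs_le.1 hv).1
  have hv2 := (abs_le.1 hv).2
  have e1 : ∫ u in T..(2 * T), (sn T u : ℂ) * f (u + v) =
      ∫ t in (T + v)..(2 * T + v), (sp T (t - v) : ℂ) * f t := by
    have := intervalIntegral.integral_comp_add_right (a := T) (b := 2 * T)
      (fun t : ℝ => (sp T (t - v) : ℂ) * f t) v
    rw [← this]
    refine intervalIntegral.integral_congr fun u hu => ?_
    rw [uIcc_of_le (by linarith)] at hu
    simp only [add_sub_cancel_right]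
    rw [sp_eq hu.1 hu.2]
  have hc : ContinuousOn (fun t : ℝ => (sp T (t - v) : ℂ) * f t) (Icc (T / 2) (3 * T)) :=
    (Continuous.continuousOn (by
      have := sp_cont T
      fun_prop)).mul hf
  have hI : ∀ a b : ℝ, T / 2 ≤ a → a ≤ b → b ≤ 3 * T →
      IntervalIntegrable (fun t : ℝ => (sp T (t - v) : ℂ) * f t) volume a b := by
    intro a b h1 h2 h3
    refine ContinuousOn.intervalIntegrable ?_
    rw [uIcc_of_le h2]
    exact hc.mono (Icc_subset_Icc h1 h3)
  have z1 : ∫ t in (T / 2)..(T + v), (sp T (t - v) : ℂ) * f t = 0 := by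
    rw [intervalIntegral.integral_congr (g := fun _ => (0 : ℂ)), intervalIntegral.integral_zero]
    intro t ht
    rw [uIcc_of_le (by linarith)] at ht
    simp only
    rw [sp_left hT (by linarith [ht.2]), ofReal_zero, zero_mul]
  have z2 : ∫ t in (2 * T + v)..(3 * T), (sp T (t - v) : ℂ) * f t = 0 := by
    rw [intervalIntegral.integral_congr (g := fun _ => (0 : ℂ)), intervalIntegral.integral_zero]
    intro t ht
    rw [uIcc_of_le (by linarith)] at ht
    simp only
    rw [sp_right hT (by linarith [ht.1]), ofReal_zero, zero_mul]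
  rw [e1, ← intervalIntegral.integral_add_adjacent_intervals
    (hI (T / 2) (T + v) le_rfl (by linarith) (by linarith))
    (hI (T + v) (3 * T) (by linarith) (by linarith) le_rfl), z1, zero_add,
    ← intervalIntegral.integral_add_adjacent_intervals
    (hI (T + v) (2 * T + v) (by linarith) (by linarith) (by linarith))
    (hI (2 * T + v) (3 * T) (by linarith) (by linarith) le_rfl), z2, add_zero]

theorem Ga_eq (H D u : ℝ) (f : ℝ → ℂ) :
    Ga H D u f = ∫ v in (-D)..D, (gd H v : ℂ) * f (u + v) := by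
  unfold Ga
  have h := intervalIntegral.integral_comp_add_left (a := -D) (b := D)
    (fun t : ℝ => ((Real.exp (-((t - u) / H) ^ 2) : ℝ) : ℂ) * f t) u
  rw [show u - D = u + -D by ring, ← h, ← intervalIntegral.integral_const_mul]
  refine intervalIntegral.integral_congr fun v _ => ?_
  simp only [add_sub_cancel_left]
  unfold gd
  push_cast
  ring

theorem cv : T_CV := by
  intro T H C₀ C₁ f hT1 hH hf hGa hC₁
  have hT : 0 < T := by linarith
  have hpi := Real.pi_pos
  have hs : 0 < Real.sqrt Real.pi := Real.sqrt_pos.2 hpi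
  set D : ℝ := T / 4 with hDdef
  have hD : 0 ≤ D := by positivity
  have hDD : -D ≤ D := by linarith
  have hT2 : T ≤ 2 * T := by linarith
  have hT3 : T / 2 ≤ 3 * T := by linarith
  -- Fubini
  have hcF : ContinuousOn (Function.uncurry fun u v : ℝ => (sn T u : ℂ) * ((gd H v : ℂ) *
      f (u + v))) (Icc T (2 * T) ×ˢ Icc (-D) D) := by
    refine ContinuousOn.mul ?_ (ContinuousOn.mul ?_ ?_)
    · have := sn_cont T
      exact Continuous.continuousOn (by fun_prop)
    · have := gd_cont H
      exact Continuous.continuousOn (by fun_prop)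
    · refine hf.comp (Continuous.continuousOn (by fun_prop)) ?_
      rintro ⟨u, v⟩ ⟨hu, hv⟩
      simp only [mem_Icc] at hu hv ⊢
      constructor <;> linarith [hu.1, hu.2, hv.1, hv.2]
  obtain ⟨f1, f2, f3⟩ := fub hT2 hDD hcF
  have hcsn := sn_cont T
  -- the average
  have hav : ‖∫ u in T..(2 * T), (sn T u : ℂ) * Ga H D u f‖ ≤ C₀ * (2 * T / Real.pi) := by
    rw [← sn_integral hT, ← intervalIntegral.integral_const_mul]
    refine intervalIntegral.norm_integral_le_of_norm_le hT2 ?_
      (((hcsn).const_mul C₀).intervalIntegrable _ _)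
    refine Filter.Eventually.of_forall fun u hu => ?_
    have h0 := sn_nonneg hT hu.1.le hu.2
    rw [norm_mul, Complex.norm_of_nonneg h0, mul_comm]
    exact mul_le_mul_of_nonneg_right (hGa u ⟨hu.1.le, hu.2⟩) h0
  have e1 : ∫ u in T..(2 * T), (sn T u : ℂ) * Ga H D u f =
      ∫ v in (-D)..D, (gd H v : ℂ) * ∫ t in (T / 2)..(3 * T), (sp T (t - v) : ℂ) * f t := by
    have e2 : ∫ u in T..(2 * T), (sn T u : ℂ) * Ga H D u f =
        ∫ u in T..(2 * T), ∫ v in (-D)..D, (sn T u : ℂ) * ((gd H v : ℂ) * f (u + v)) := by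
      refine intervalIntegral.integral_congr fun u _ => ?_
      rw [Ga_eq, intervalIntegral.integral_const_mul]
    rw [e2, f1]
    refine intervalIntegral.integral_congr fun v hv => ?_
    rw [uIcc_of_le hDD] at hv
    rw [← split hT (abs_le.2 hv) hf, ← intervalIntegral.integral_const_mul]
    refine intervalIntegral.integral_congr fun u _ => ?_
    ring
  set J : ℂ := ∫ t in T..(2 * T), (sn T t : ℂ) * f t with hJ
  have hnf : IntervalIntegrable (fun t => ‖f t‖) volume (T / 2) (3 * T) := by
    refine ContinuousOn.intervalIntegrable ?_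
    rw [uIcc_of_le hT3]
    exact hf.norm
  have hspf : ∀ v : ℝ, IntervalIntegrable (fun t : ℝ => (sp T (t - v) : ℂ) * f t) volume
      (T / 2) (3 * T) := by
    intro v
    refine ContinuousOn.intervalIntegrable ?_
    rw [uIcc_of_le hT3]
    refine ContinuousOn.mul (Continuous.continuousOn ?_) hf
    have := sp_cont T
    fun_prop
  have hJ0 : J = ∫ t in (T / 2)..(3 * T), (sp T (t - 0) : ℂ) * f t := by
    rw [← split hT (by rw [abs_zero]; positivity) hf]
    simp only [add_zero]
    exact hJ
  have hC₁0 : 0 ≤ C₁ * T := le_trans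
    (intervalIntegral.integral_nonneg hT3 fun t _ => norm_nonneg _) hC₁
  have hsp1 : ∀ x, |sp T x| ≤ 1 := fun x => Real.abs_sin_le_one _
  have hJn : ‖J‖ ≤ C₁ * T := by
    rw [hJ0]
    refine le_trans (intervalIntegral.norm_integral_le_of_norm_le hT3 ?_ hnf) hC₁
    refine Filter.Eventually.of_forall fun t _ => ?_
    rw [norm_mul]
    calc ‖(sp T (t - 0) : ℂ)‖ * ‖f t‖ ≤ 1 * ‖f t‖ := by
          refine mul_le_mul_of_nonneg_right ?_ (norm_nonneg _)
          rw [Complex.norm_real]
          exact hsp1 _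
      _ = ‖f t‖ := one_mul _
  -- the difference for a fixed shift
  have hdiff : ∀ v : ℝ, ‖(∫ t in (T / 2)..(3 * T), (sp T (t - v) : ℂ) * f t) - J‖ ≤
      Real.pi * |v| * C₁ := by
    intro v
    rw [hJ0, ← intervalIntegral.integral_sub (hspf v) (hspf 0)]
    have hb : ‖∫ t in (T / 2)..(3 * T), ((sp T (t - v) : ℂ) * f t - (sp T (t - 0) : ℂ) * f t)‖ ≤
        ∫ t in (T / 2)..(3 * T), Real.pi / T * |v| * ‖f t‖ := by
      refine intervalIntegral.norm_integral_le_of_norm_le hT3 ?_ (hnf.const_mul _)
      refine Filter.Eventually.of_forall fun t _ => ?_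
      rw [← sub_mul, norm_mul]
      refine mul_le_mul_of_nonneg_right ?_ (norm_nonneg _)
      rw [← Complex.ofReal_sub, Complex.norm_real, Real.norm_eq_abs]
      refine (sp_lip hT _ _).trans (le_of_eq ?_)
      rw [show t - v - (t - 0) = -v by ring, abs_neg]
    refine hb.trans ?_
    rw [intervalIntegral.integral_const_mul]
    calc Real.pi / T * |v| * ∫ t in (T / 2)..(3 * T), ‖f t‖
        ≤ Real.pi / T * |v| * (C₁ * T) := mul_le_mul_of_nonneg_left hC₁ (by positivity)
      _ = Real.pi * |v| * C₁ := by field_simp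
  have hC₁' : 0 ≤ C₁ := by
    by_contra hc
    push Not at hc
    nlinarith
  -- the difference of the averages
  have hgi : IntervalIntegrable (fun v => (gd H v : ℂ) * J) volume (-D) D := by
    have := gd_cont H
    exact Continuous.intervalIntegrable (by fun_prop) _ _
  have hgF : IntervalIntegrable (fun v => (gd H v : ℂ) *
      ∫ t in (T / 2)..(3 * T), (sp T (t - v) : ℂ) * f t) volume (-D) D := by
    refine f3.congr ?_
    intro v hv
    rw [uIoc_of_le hDD] at hv
    simp only
    rw [← split hT (abs_le.2 ⟨hv.1.le, hv.2⟩) hf, ← intervalIntegral.integral_const_mul]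
    refine intervalIntegral.integral_congr fun u _ => ?_
    ring
  have h2 : ‖(∫ v in (-D)..D, (gd H v : ℂ) * ∫ t in (T / 2)..(3 * T), (sp T (t - v) : ℂ) * f t) -
      ∫ v in (-D)..D, (gd H v : ℂ) * J‖ ≤ C₁ * (2 * H) := by
    rw [← intervalIntegral.integral_sub hgF hgi]
    have hcont : Continuous fun v : ℝ => Real.pi * C₁ * (|v| * gd H v) :=
      continuous_const.mul (continuous_abs.mul (gd_cont H))
    have hb : ‖∫ v in (-D)..D, ((gd H v : ℂ) *
        (∫ t in (T / 2)..(3 * T), (sp T (t - v) : ℂ) * f t) - (gd H v : ℂ) * J)‖ ≤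
        ∫ v in (-D)..D, Real.pi * C₁ * (|v| * gd H v) := by
      refine intervalIntegral.norm_integral_le_of_norm_le hDD ?_ (hcont.intervalIntegrable _ _)
      refine Filter.Eventually.of_forall fun v _ => ?_
      rw [← mul_sub, norm_mul, Complex.norm_of_nonneg (gd_nonneg hH v)]
      calc gd H v * ‖(∫ t in (T / 2)..(3 * T), (sp T (t - v) : ℂ) * f t) - J‖
          ≤ gd H v * (Real.pi * |v| * C₁) :=
            mul_le_mul_of_nonneg_left (hdiff v) (gd_nonneg hH v)
        _ = Real.pi * C₁ * (|v| * gd H v) := by ring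
    refine hb.trans ?_
    rw [intervalIntegral.integral_const_mul]
    calc Real.pi * C₁ * ∫ v in (-D)..D, |v| * gd H v
        ≤ Real.pi * C₁ * (H / Real.sqrt Real.pi) :=
          mul_le_mul_of_nonneg_left (gd_abs hH hD) (by positivity)
      _ = C₁ * (Real.sqrt Real.pi * H) := by
          have hq : Real.pi = Real.sqrt Real.pi * Real.sqrt Real.pi :=
            (Real.mul_self_sqrt hpi.le).symm
          have : Real.pi * C₁ * (H / Real.sqrt Real.pi) =
            (Real.sqrt Real.pi * Real.sqrt Real.pi) * C₁ * (H / Real.sqrt Real.pi) := by rw [← hq]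
          rw [this]
          field_simp
      _ ≤ C₁ * (2 * H) := by
          refine mul_le_mul_of_nonneg_left (mul_le_mul_of_nonneg_right ?_ hH.le) hC₁'
          rw [Real.sqrt_le_left (by norm_num)]
          nlinarith [Real.pi_le_four]
  have h3 : ∫ v in (-D)..D, (gd H v : ℂ) * J = ((∫ v in (-D)..D, gd H v : ℝ) : ℂ) * J := by
    rw [intervalIntegral.integral_mul_const, intervalIntegral.integral_ofReal]
  set m : ℝ := ∫ v in (-D)..D, gd H v with hm
  have hm1 : m ≤ 1 := gd_le_one hH hD
  have hm2 : 1 - m ≤ 2 * Real.exp (-(D / H) ^ 2) := gd_tail hH hD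
  have h4 : J = (∫ u in T..(2 * T), (sn T u : ℂ) * Ga H D u f) -
      ((∫ v in (-D)..D, (gd H v : ℂ) * ∫ t in (T / 2)..(3 * T), (sp T (t - v) : ℂ) * f t) -
        ∫ v in (-D)..D, (gd H v : ℂ) * J) + ((1 - m : ℝ) : ℂ) * J := by
    rw [e1, h3]
    push_cast
    ring
  have h5 : ‖((1 - m : ℝ) : ℂ) * J‖ ≤ C₁ * T * (2 * Real.exp (-(T / (4 * H)) ^ 2)) := by
    rw [norm_mul, Complex.norm_of_nonneg (by linarith), mul_comm]
    have e : T / (4 * H) = D / H := by
      rw [hDdef]
      field_simp
    rw [e]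
    exact mul_le_mul hJn hm2 (by linarith) hC₁0
  calc ‖J‖ = ‖(∫ u in T..(2 * T), (sn T u : ℂ) * Ga H D u f) -
      ((∫ v in (-D)..D, (gd H v : ℂ) * ∫ t in (T / 2)..(3 * T), (sp T (t - v) : ℂ) * f t) -
        ∫ v in (-D)..D, (gd H v : ℂ) * J) + ((1 - m : ℝ) : ℂ) * J‖ := congrArg _ h4
    _ ≤ C₀ * (2 * T / Real.pi) + C₁ * (2 * H) + C₁ * T * (2 * Real.exp (-(T / (4 * H)) ^ 2)) := by
        refine (norm_add_le _ _).trans (add_le_add ((norm_sub_le _ _).trans
          (add_le_add hav h2)) h5)
    _ = C₀ * (2 * T / Real.pi) + C₁ * T * (2 * H / T + 2 * Real.exp (-(T / (4 * H)) ^ 2)) := by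
        field_simp
        ring

end Pool.Agent.H2.PZ
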