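import Pool.Agent.H28.MZ.Targets

/-!
# From Gamma weights to the sine weight (module MX)
-/

set_option autoImplicit false

open Complex MeasureTheory Set

namespace Pool.Agent.H2.PZ

open Pool.Agent.H28.MZ

theorem pow_exp_int (k : ℕ) {r : ℝ} (hr : 0 < r) :
    ∫ v in Ioi (0 : ℝ), v ^ k * Real.exp (-(r * v)) = (k.factorial : ℝ) / r ^ (k + 1) := by
  have h := Real.integral_rpow_mul_exp_neg_mul_Ioi (a := (k : ℝ) + 1) (by positivity) hr
  have h2 : ∫ v in Ioi (0 : ℝ), v ^ ((k : ℝ) + 1 - 1) * Real.exp (-(r * v)) =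
      ∫ v in Ioi (0 : ℝ), v ^ k * Real.exp (-(r * v)) := by
    refine setIntegral_congr_fun measurableSet_Ioi fun v _ => ?_
    simp only [add_sub_cancel_right, Real.rpow_natCast]
  rw [← h2, h, Real.Gamma_nat_eq_factorial]
  rw [show ((k : ℝ) + 1) = ((k + 1 : ℕ) : ℝ) by push_cast; ring, Real.rpow_natCast]
  rw [div_pow, one_pow]
  ring

theorem pow_exp_integrable (k : ℕ) {r : ℝ} (hr : 0 < r) :
    IntegrableOn (fun v : ℝ => v ^ k * Real.exp (-(r * v))) (Ioi 0) := by
  by_contra hc
  have h := pow_exp_int k hr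
  rw [integral_undef hc] at h
  have : 0 < (k.factorial : ℝ) / r ^ (k + 1) := by positivity
  linarith

/-- the constant of the Gamma density -/
noncomputable def cN (N : ℕ) : ℝ := (N : ℝ) ^ N / Real.Gamma N

/-- the Gamma density -/
noncomputable def mm (N : ℕ) (v : ℝ) : ℝ := cN N * (v ^ (N - 1) * Real.exp (-(N * v)))

theorem cN_eq (k : ℕ) : cN (k + 3) = ((k : ℝ) + 3) ^ (k + 3) / ((k + 2).factorial : ℝ) := by
  unfold cN
  have : ((k + 3 : ℕ) : ℝ) = ((k + 2 : ℕ) : ℝ) + 1 := by push_cast; ring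
  rw [this, Real.Gamma_nat_eq_factorial]
  congr 2
  push_cast
  ring

theorem cN_pos (k : ℕ) : 0 < cN (k + 3) := by
  rw [cN_eq]
  positivity

theorem mm_int (k : ℕ) : IntegrableOn (mm (k + 3)) (Ioi 0) := by
  unfold mm
  exact (pow_exp_integrable (k + 2) (r := ((k + 3 : ℕ) : ℝ)) (by positivity)).const_mul _

theorem mm_one (k : ℕ) : ∫ v in Ioi (0 : ℝ), mm (k + 3) v = 1 := by
  unfold mm
  rw [integral_const_mul, show k + 3 - 1 = k + 2 by omega, pow_exp_int _ (by positivity), cN_eq]
  have h1 : ((k + 2).factorial : ℝ) ≠ 0 := by positivity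
  have h2 : ((k : ℝ) + 3) ≠ 0 := by positivity
  push_cast
  rw [show k + 2 + 1 = k + 3 by omega]
  field_simp

/-- `∫ (v-1)² dm = 1/N` -/
theorem mm_two (k : ℕ) : IntegrableOn (fun v => (v - 1) ^ 2 * mm (k + 3) v) (Ioi 0) ∧
    ∫ v in Ioi (0 : ℝ), (v - 1) ^ 2 * mm (k + 3) v = 1 / ((k : ℝ) + 3) := by
  have hr : (0 : ℝ) < ((k + 3 : ℕ) : ℝ) := by positivity
  have e : (fun v : ℝ => (v - 1) ^ 2 * mm (k + 3) v) = fun v : ℝ =>
      cN (k + 3) * (v ^ (k + 4) * Real.exp (-(((k + 3 : ℕ) : ℝ) * v))) -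
        2 * cN (k + 3) * (v ^ (k + 3) * Real.exp (-(((k + 3 : ℕ) : ℝ) * v))) +
        cN (k + 3) * (v ^ (k + 2) * Real.exp (-(((k + 3 : ℕ) : ℝ) * v))) := by
    funext v
    unfold mm
    rw [show k + 3 - 1 = k + 2 by omega]
    ring
  have i4 := (pow_exp_integrable (k + 4) hr).const_mul (cN (k + 3))
  have i3 := (pow_exp_integrable (k + 3) hr).const_mul (2 * cN (k + 3))
  have i2 := (pow_exp_integrable (k + 2) hr).const_mul (cN (k + 3))
  have i43 : IntegrableOn (fun v : ℝ =>
      cN (k + 3) * (v ^ (k + 4) * Real.exp (-(((k + 3 : ℕ) : ℝ) * v))) -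
        2 * cN (k + 3) * (v ^ (k + 3) * Real.exp (-(((k + 3 : ℕ) : ℝ) * v)))) (Ioi 0) :=
    i4.sub i3
  refine ⟨?_, ?_⟩
  · rw [e]
    exact i43.add i2
  · rw [e, integral_add i43 i2, integral_sub i4 i3, integral_const_mul,
      integral_const_mul, integral_const_mul, pow_exp_int _ hr, pow_exp_int _ hr,
      pow_exp_int _ hr, cN_eq]
    have h1 : ((k + 2).factorial : ℝ) ≠ 0 := by positivity
    have h2 : ((k : ℝ) + 3) ≠ 0 := by positivity
    have f3 : ((k + 3).factorial : ℝ) = ((k : ℝ) + 3) * (k + 2).factorial := by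
      rw [show k + 3 = (k + 2) + 1 by omega, Nat.factorial_succ]
      push_cast
      ring
    have f4 : ((k + 4).factorial : ℝ) = ((k : ℝ) + 4) * (((k : ℝ) + 3) * (k + 2).factorial) := by
      rw [show k + 4 = (k + 3) + 1 by omega, Nat.factorial_succ]
      push_cast
      rw [f3]
      ring
    rw [f3, f4]
    push_cast
    rw [show k + 4 + 1 = (k + 3) + 2 by omega, show k + 3 + 1 = (k + 3) + 1 by omega,
      show k + 2 + 1 = k + 3 by omega, pow_add _ (k + 3) 2, pow_add _ (k + 3) 1]
    field_simp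
    ring

/-- the moment of order `-2` -/
theorem mm_neg (k : ℕ) (hk : 1 ≤ k) :
    ∫ v in Ioi (0 : ℝ), cN (k + 3) * (v ^ k * Real.exp (-(((k + 3 : ℕ) : ℝ) * v))) ≤ 4 := by
  have hr : (0 : ℝ) < ((k + 3 : ℕ) : ℝ) := by positivity
  rw [integral_const_mul, pow_exp_int _ hr, cN_eq]
  have h1 : (0 : ℝ) < (k.factorial : ℝ) := by positivity
  have h2 : (0 : ℝ) < ((k : ℝ) + 3) := by positivity
  have f2 : ((k + 2).factorial : ℝ) = ((k : ℝ) + 2) * (((k : ℝ) + 1) * k.factorial) := by
    rw [show k + 2 = (k + 1) + 1 by omega, Nat.factorial_succ, Nat.factorial_succ]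
    push_cast
    ring
  rw [f2]
  push_cast
  have e : ((k : ℝ) + 3) ^ (k + 3) / (((k : ℝ) + 2) * (((k : ℝ) + 1) * k.factorial)) *
      ((k.factorial : ℝ) / ((k : ℝ) + 3) ^ (k + 1)) =
        ((k : ℝ) + 3) ^ 2 / (((k : ℝ) + 2) * ((k : ℝ) + 1)) := by
    rw [show k + 3 = (k + 1) + 2 by omega, pow_add _ (k + 1) 2]
    field_simp
  rw [e, div_le_iff₀ (by positivity)]
  have hk' : (1 : ℝ) ≤ k := by exact_mod_cast hk
  nlinarith

theorem sn_nonneg {T t : ℝ} (hT : 0 < T) (h1 : T ≤ t) (h2 : t ≤ 2 * T) : 0 ≤ sn T t := by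
  unfold sn
  refine Real.sin_nonneg_of_nonneg_of_le_pi ?_ ?_
  · exact div_nonneg (mul_nonneg Real.pi_pos.le (by linarith)) hT.le
  · rw [div_le_iff₀ hT]
    exact mul_le_mul_of_nonneg_left (by linarith) Real.pi_pos.le

theorem sn_lip {T : ℝ} (hT : 0 < T) (x y : ℝ) : |sn T x - sn T y| ≤ Real.pi / T * |x - y| := by
  unfold sn
  have h := Real.abs_sin_sub_sin_le (Real.pi * (x - T) / T) (Real.pi * (y - T) / T)
  refine h.trans (le_of_eq ?_)
  rw [show Real.pi * (x - T) / T - Real.pi * (y - T) / T = Real.pi / T * (x - y) by ring, abs_mul,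
    abs_of_pos (by positivity)]

theorem sn_left (T : ℝ) : sn T T = 0 := by
  simp [sn]

theorem sn_right {T : ℝ} (hT : 0 < T) : sn T (2 * T) = 0 := by
  unfold sn
  rw [show Real.pi * (2 * T - T) / T = Real.pi by field_simp; ring, Real.sin_pi]

theorem sn_cont (T : ℝ) : Continuous (sn T) := by
  unfold sn
  fun_prop

/-- pointwise inequality for the sine weight -/
theorem pt {T t v : ℝ} (hT : 0 < T) (h1 : T ≤ t) (h2 : t ≤ 2 * T) (hv : 0 < v) :
    sn T t ≤ (Icc (t / (2 * T)) (t / T)).indicator (fun v => sn T (t / v)) v +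
      Real.pi * t / T * (|v - 1| / v) := by
  have ht : 0 < t := lt_of_lt_of_le hT h1
  have key : Real.pi / T * |t - t / v| = Real.pi * t / T * (|v - 1| / v) := by
    have : t - t / v = t / v * (v - 1) := by
      field_simp
    rw [this, abs_mul, abs_of_pos (div_pos ht hv)]
    ring
  by_cases hm : v ∈ Icc (t / (2 * T)) (t / T)
  · rw [indicator_of_mem hm, ← key]
    have := sn_lip hT t (t / v)
    have := le_abs_self (sn T t - sn T (t / v))
    linarith
  · rw [indicator_of_notMem hm, ← key, zero_add]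
    rw [mem_Icc, not_and_or, not_le, not_le] at hm
    rcases hm with hm | hm
    · have h3 : 2 * T < t / v := by
        rw [lt_div_iff₀ hv]
        rw [lt_div_iff₀ (by positivity)] at hm
        linarith
      have h4 := sn_lip hT t (2 * T)
      rw [sn_right hT, sub_zero] at h4
      refine (le_abs_self _).trans (h4.trans (mul_le_mul_of_nonneg_left ?_ (by positivity)))
      rw [abs_of_nonpos (by linarith), abs_of_nonpos (by linarith)]
      linarith
    · have h3 : t / v < T := by
        rw [div_lt_iff₀ hv]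
        rw [div_lt_iff₀ hT] at hm
        linarith
      have h4 := sn_lip hT t T
      rw [sn_left, sub_zero] at h4
      refine (le_abs_self _).trans (h4.trans (mul_le_mul_of_nonneg_left ?_ (by positivity)))
      rw [abs_of_nonneg (by linarith), abs_of_nonneg (by linarith)]
      linarith

theorem amgm {N v : ℝ} (hN : 0 < N) (hv : 0 < v) :
    |v - 1| / v ≤ Real.sqrt N * (v - 1) ^ 2 + 1 / (4 * Real.sqrt N) * (1 / v ^ 2) := by
  have hs : 0 < Real.sqrt N := Real.sqrt_pos.2 hN
  have h : 0 ≤ (Real.sqrt N * |v - 1| - 1 / (2 * v)) ^ 2 := sq_nonneg _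
  have h3 : (v - 1) ^ 2 = |v - 1| ^ 2 := (sq_abs _).symm
  rw [h3]
  have e : Real.sqrt N * |v - 1| ^ 2 + 1 / (4 * Real.sqrt N) * (1 / v ^ 2) - |v - 1| / v =
      (Real.sqrt N * |v - 1| - 1 / (2 * v)) ^ 2 / Real.sqrt N := by
    field_simp
    ring
  have : 0 ≤ (Real.sqrt N * |v - 1| - 1 / (2 * v)) ^ 2 / Real.sqrt N := div_nonneg h hs.le
  linarith

theorem mm_cont (N : ℕ) : Continuous (mm N) := by
  unfold mm
  fun_prop

theorem mm_nonneg (k : ℕ) {v : ℝ} (hv : 0 ≤ v) : 0 ≤ mm (k + 3) v := by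
  unfold mm
  exact mul_nonneg (cN_pos k).le (mul_nonneg (pow_nonneg hv _) (Real.exp_pos _).le)

theorem A_bound (k : ℕ) (hk : 1 ≤ k) {T t : ℝ} (hT : 0 < T) (h1 : T ≤ t) (h2 : t ≤ 2 * T) :
    sn T t ≤ (∫ v in (t / (2 * T))..(t / T), sn T (t / v) * mm (k + 3) v) +
      4 * Real.pi / Real.sqrt ((k : ℝ) + 3) := by
  have ht : 0 < t := lt_of_lt_of_le hT h1
  have hN : (0 : ℝ) < (k : ℝ) + 3 := by positivity
  have hs : 0 < Real.sqrt ((k : ℝ) + 3) := Real.sqrt_pos.2 hN
  have hr : (0 : ℝ) < ((k + 3 : ℕ) : ℝ) := by positivity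
  have ha : 0 < t / (2 * T) := by positivity
  have hab : t / (2 * T) ≤ t / T := by
    refine div_le_div_of_nonneg_left ht.le hT (by linarith)
  -- the interval integral as an integral over `Ioi 0`
  have hcont : ContinuousOn (fun v => sn T (t / v) * mm (k + 3) v) (Icc (t / (2 * T)) (t / T)) := by
    refine ContinuousOn.mul ((sn_cont T).comp_continuousOn ?_) (mm_cont _).continuousOn
    refine ContinuousOn.div continuousOn_const continuousOn_id fun v hv => ?_
    exact (lt_of_lt_of_le ha hv.1).ne'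
  have hint : IntegrableOn (fun v => sn T (t / v) * mm (k + 3) v) (Icc (t / (2 * T)) (t / T)) :=
    hcont.integrableOn_Icc
  have hI : (∫ v in (t / (2 * T))..(t / T), sn T (t / v) * mm (k + 3) v) =
      ∫ v in Ioi (0 : ℝ), (Icc (t / (2 * T)) (t / T)).indicator
        (fun v => sn T (t / v) * mm (k + 3) v) v := by
    rw [intervalIntegral.integral_of_le hab, ← integral_Icc_eq_integral_Ioc,
      setIntegral_indicator measurableSet_Icc]
    congr 2
    exact (inter_eq_right.2 fun v hv => lt_of_lt_of_le ha hv.1).symm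
  have hIint : IntegrableOn ((Icc (t / (2 * T)) (t / T)).indicator
        (fun v => sn T (t / v) * mm (k + 3) v)) (Ioi 0) :=
    (hint.integrable_indicator measurableSet_Icc).integrableOn
  have i2 := (mm_two k).1
  have i3 : IntegrableOn (fun v : ℝ => cN (k + 3) * (v ^ k * Real.exp (-(((k + 3 : ℕ) : ℝ) * v))))
      (Ioi 0) := (pow_exp_integrable k hr).const_mul _
  have i23 : IntegrableOn (fun v : ℝ => Real.sqrt ((k : ℝ) + 3) * ((v - 1) ^ 2 * mm (k + 3) v) +
            1 / (4 * Real.sqrt ((k : ℝ) + 3)) *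
              (cN (k + 3) * (v ^ k * Real.exp (-(((k + 3 : ℕ) : ℝ) * v))))) (Ioi 0) :=
    (i2.const_mul _).add (i3.const_mul _)
  have hmono : ∫ v in Ioi (0 : ℝ), sn T t * mm (k + 3) v ≤
      ∫ v in Ioi (0 : ℝ), ((Icc (t / (2 * T)) (t / T)).indicator
        (fun v => sn T (t / v) * mm (k + 3) v) v + Real.pi * t / T *
          (Real.sqrt ((k : ℝ) + 3) * ((v - 1) ^ 2 * mm (k + 3) v) +
            1 / (4 * Real.sqrt ((k : ℝ) + 3)) *
              (cN (k + 3) * (v ^ k * Real.exp (-(((k + 3 : ℕ) : ℝ) * v)))))) := by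
    refine setIntegral_mono_on ((mm_int k).const_mul _) ?_ measurableSet_Ioi fun v hv => ?_
    · exact hIint.add (i23.const_mul _)
    · have hv' : 0 < v := hv
      have hm := mm_nonneg k hv'.le
      have p1 := mul_le_mul_of_nonneg_right (pt hT h1 h2 hv') hm
      have p2 := mul_le_mul_of_nonneg_right (amgm hN hv') hm
      have e1 : (Icc (t / (2 * T)) (t / T)).indicator (fun v => sn T (t / v)) v * mm (k + 3) v =
          (Icc (t / (2 * T)) (t / T)).indicator (fun v => sn T (t / v) * mm (k + 3) v) v := by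
        by_cases hm : v ∈ Icc (t / (2 * T)) (t / T)
        · rw [indicator_of_mem hm, indicator_of_mem hm]
        · rw [indicator_of_notMem hm, indicator_of_notMem hm, zero_mul]
      have e2 : 1 / v ^ 2 * mm (k + 3) v =
          cN (k + 3) * (v ^ k * Real.exp (-(((k + 3 : ℕ) : ℝ) * v))) := by
        unfold mm
        rw [show k + 3 - 1 = k + 2 by omega, pow_add]
        field_simp
      rw [add_mul, e1] at p1
      refine p1.trans (add_le_add le_rfl ?_)
      rw [mul_assoc]
      refine mul_le_mul_of_nonneg_left ?_ (by positivity)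
      refine p2.trans (le_of_eq ?_)
      rw [← e2]
      ring
  rw [integral_const_mul, mm_one, mul_one, integral_add hIint (i23.const_mul _),
    integral_const_mul,
    integral_add (i2.const_mul _) (i3.const_mul _), integral_const_mul, integral_const_mul,
    (mm_two k).2, ← hI] at hmono
  refine hmono.trans (add_le_add le_rfl ?_)
  have h4 := mm_neg k hk
  have h5 : Real.sqrt ((k : ℝ) + 3) * (1 / ((k : ℝ) + 3)) +
      1 / (4 * Real.sqrt ((k : ℝ) + 3)) *
        (∫ v in Ioi (0 : ℝ), cN (k + 3) * (v ^ k * Real.exp (-(((k + 3 : ℕ) : ℝ) * v)))) ≤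
        2 / Real.sqrt ((k : ℝ) + 3) := by
    have h6 : Real.sqrt ((k : ℝ) + 3) * (1 / ((k : ℝ) + 3)) = 1 / Real.sqrt ((k : ℝ) + 3) := by
      have := Real.mul_self_sqrt hN.le
      rw [mul_one_div, div_eq_div_iff hN.ne' hs.ne', one_mul]
      exact this
    rw [h6]
    have h7 : 1 / (4 * Real.sqrt ((k : ℝ) + 3)) *
        (∫ v in Ioi (0 : ℝ), cN (k + 3) * (v ^ k * Real.exp (-(((k + 3 : ℕ) : ℝ) * v)))) ≤
        1 / (4 * Real.sqrt ((k : ℝ) + 3)) * 4 := mul_le_mul_of_nonneg_left h4 (by positivity)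
    have h8 : 1 / (4 * Real.sqrt ((k : ℝ) + 3)) * 4 = 1 / Real.sqrt ((k : ℝ) + 3) := by
      field_simp
    rw [h8] at h7
    have h9 : 2 / Real.sqrt ((k : ℝ) + 3) =
      1 / Real.sqrt ((k : ℝ) + 3) + 1 / Real.sqrt ((k : ℝ) + 3) := by ring
    rw [h9]
    linarith
  calc Real.pi * t / T * (Real.sqrt ((k : ℝ) + 3) * (1 / ((k : ℝ) + 3)) +
      1 / (4 * Real.sqrt ((k : ℝ) + 3)) *
        (∫ v in Ioi (0 : ℝ), cN (k + 3) * (v ^ k * Real.exp (-(((k + 3 : ℕ) : ℝ) * v)))))
      ≤ Real.pi * t / T * (2 / Real.sqrt ((k : ℝ) + 3)) :=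
        mul_le_mul_of_nonneg_left h5 (by positivity)
    _ ≤ (2 * Real.pi) * (2 / Real.sqrt ((k : ℝ) + 3)) := by
        refine mul_le_mul_of_nonneg_right ?_ (by positivity)
        rw [div_le_iff₀ hT]
        nlinarith [Real.pi_pos]
    _ = 4 * Real.pi / Real.sqrt ((k : ℝ) + 3) := by ring

theorem B_bound (k : ℕ) (hk : 5 ≤ k) {T t : ℝ} (hT : 0 < T) (h1 : T ≤ t) (h2 : t ≤ 2 * T) :
    1 / 2 ≤ ∫ v in (t / (4 * T))..(t / (T / 2)), mm (k + 3) v := by
  have ht : 0 < t := lt_of_lt_of_le hT h1
  have ha : 0 < t / (4 * T) := by positivity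
  have hab : t / (4 * T) ≤ t / (T / 2) := by
    refine div_le_div_of_nonneg_left ht.le (by positivity) (by linarith)
  have hint : IntegrableOn (mm (k + 3)) (Icc (t / (4 * T)) (t / (T / 2))) :=
    (mm_cont _).continuousOn.integrableOn_Icc
  have hI : (∫ v in (t / (4 * T))..(t / (T / 2)), mm (k + 3) v) =
      ∫ v in Ioi (0 : ℝ), (Icc (t / (4 * T)) (t / (T / 2))).indicator (mm (k + 3)) v := by
    rw [intervalIntegral.integral_of_le hab, ← integral_Icc_eq_integral_Ioc,
      setIntegral_indicator measurableSet_Icc]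
    congr 2
    exact (inter_eq_right.2 fun v hv => lt_of_lt_of_le ha hv.1).symm
  have hmono : ∫ v in Ioi (0 : ℝ), (mm (k + 3) v - 4 * ((v - 1) ^ 2 * mm (k + 3) v)) ≤
      ∫ v in Ioi (0 : ℝ), (Icc (t / (4 * T)) (t / (T / 2))).indicator (mm (k + 3)) v := by
    refine setIntegral_mono_on ((mm_int k).sub ((mm_two k).1.const_mul _))
      (hint.integrable_indicator measurableSet_Icc).integrableOn measurableSet_Ioi fun v hv => ?_
    have hv' : 0 < v := hv
    have hm := mm_nonneg k hv'.le
    by_cases hmem : v ∈ Icc (t / (4 * T)) (t / (T / 2))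
    · rw [indicator_of_mem hmem]
      have : 0 ≤ (v - 1) ^ 2 * mm (k + 3) v := mul_nonneg (sq_nonneg _) hm
      linarith
    · rw [indicator_of_notMem hmem]
      have h3 : 1 ≤ 4 * (v - 1) ^ 2 := by
        rw [mem_Icc, not_and_or, not_le, not_le] at hmem
        rcases hmem with hh | hh
        · have : v < 1 / 2 := by
            refine lt_of_lt_of_le hh ?_
            rw [div_le_iff₀ (by positivity)]
            linarith
          nlinarith
        · have : 2 < v := by
            refine lt_of_le_of_lt ?_ hh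
            rw [le_div_iff₀ (by positivity)]
            linarith
          nlinarith
      nlinarith
  rw [hI]
  refine le_trans ?_ hmono
  rw [integral_sub (mm_int k) ((mm_two k).1.const_mul _), integral_const_mul, mm_one, (mm_two k).2]
  have : (5 : ℝ) ≤ k := by exact_mod_cast hk
  have h9 : 1 / ((k : ℝ) + 3) ≤ 1 / 8 := one_div_le_one_div_of_le (by norm_num) (by linarith)
  linarith

/-- change of variables `v = t/u` -/
theorem cov (k : ℕ) {t α β : ℝ} (ht : 0 < t) (hα : 0 < α) (hαβ : α ≤ β) (h : ℝ → ℝ)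
    (hh : Continuous h) :
    ∫ u in α..β, h u * (W (k + 3) u t / u) =
      ∫ v in (t / β)..(t / α), h (t / v) * mm (k + 3) v := by
  have hβ : 0 < β := lt_of_lt_of_le hα hαβ
  have hmem : ∀ u ∈ uIcc α β, 0 < u := by
    intro u hu
    rw [uIcc_of_le hαβ] at hu
    exact lt_of_lt_of_le hα hu.1
  have hcv := intervalIntegral.integral_comp_mul_deriv' (a := α) (b := β) (f := fun u => t / u)
    (f' := fun u => -t / u ^ 2) (g := fun v => h (t / v) * mm (k + 3) v)
    (fun u hu => by
      have hu0 := (hmem u hu).ne'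
      have := (hasDerivAt_inv hu0).const_mul t
      refine (this.congr_deriv ?_).congr_of_eventuallyEq ?_
      · ring
      · exact Filter.Eventually.of_forall fun x => by simp only [div_eq_mul_inv])
    (ContinuousOn.div continuousOn_const (by fun_prop) fun u hu => by
      have := hmem u hu
      positivity)
    (by
      refine ContinuousOn.mul (hh.comp_continuousOn ?_) (mm_cont _).continuousOn
      refine ContinuousOn.div continuousOn_const continuousOn_id ?_
      rintro v ⟨u, hu, rfl⟩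
      have := hmem u hu
      exact (div_pos ht this).ne')
  rw [intervalIntegral.integral_symm (t / α) (t / β), ← hcv, ← intervalIntegral.integral_neg]
  refine intervalIntegral.integral_congr fun u hu => ?_
  have hu0 := hmem u hu
  simp only [Function.comp]
  rw [show t / (t / u) = u by field_simp]
  unfold W mm cN
  rw [show k + 3 - 1 = k + 2 by omega, show (t / u) ^ (k + 3) = (t / u) ^ (k + 2) * (t / u) by
    rw [← pow_succ], show ((k + 3 : ℕ) : ℝ) * (t / u) = ((k + 3 : ℕ) : ℝ) * t / u by ring]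
  ring

theorem sn_integral {T : ℝ} (hT : 0 < T) : ∫ u in T..(2 * T), sn T u = 2 * T / Real.pi := by
  have hpi := Real.pi_pos
  have hd : ∀ u ∈ uIcc T (2 * T), HasDerivAt (fun u => -(T / Real.pi) *
      Real.cos (Real.pi * (u - T) / T)) (sn T u) u := by
    intro u _
    have h1 : HasDerivAt (fun u : ℝ => Real.pi * (u - T) / T) (Real.pi / T) u := by
      have := (((hasDerivAt_id u).sub_const T).const_mul Real.pi).div_const T
      refine this.congr_deriv ?_
      ring
    have h2 := (h1.cos).const_mul (-(T / Real.pi))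
    refine h2.congr_deriv ?_
    unfold sn
    field_simp
  rw [intervalIntegral.integral_eq_sub_of_hasDerivAt hd ((sn_cont T).intervalIntegrable _ _)]
  rw [show Real.pi * (2 * T - T) / T = Real.pi by field_simp; ring, sub_self, mul_zero, zero_div,
    Real.cos_pi, Real.cos_zero]
  ring

/-- Fubini for continuous functions on a rectangle -/
theorem fub {E : Type*} [NormedAddCommGroup E] [NormedSpace ℝ E] {F : ℝ → ℝ → E} {a b c d : ℝ}
    (hab : a ≤ b) (hcd : c ≤ d)
    (hF : ContinuousOn (Function.uncurry F) (Icc a b ×ˢ Icc c d)) :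
    (∫ t in a..b, ∫ u in c..d, F t u) = (∫ u in c..d, ∫ t in a..b, F t u) ∧
      IntervalIntegrable (fun t => ∫ u in c..d, F t u) volume a b ∧
      IntervalIntegrable (fun u => ∫ t in a..b, F t u) volume c d := by
  have h : IntegrableOn (Function.uncurry F) (Icc a b ×ˢ Icc c d) :=
    hF.integrableOn_compact (isCompact_Icc.prod isCompact_Icc)
  have h1 : IntegrableOn (Function.uncurry F) (Ioc a b ×ˢ Ioc c d) :=
    h.mono_set (prod_mono Ioc_subset_Icc_self Ioc_subset_Icc_self)
  have h2 : Integrable (Function.uncurry F)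
      ((volume.restrict (Ioc a b)).prod (volume.restrict (Ioc c d))) := by
    rw [Measure.prod_restrict, ← Measure.volume_eq_prod]
    exact h1
  refine ⟨?_, ?_, ?_⟩
  · refine intervalIntegral_intervalIntegral_swap ?_
    rw [uIoc_of_le hab, uIoc_of_le hcd]
    exact h1
  · rw [intervalIntegrable_iff_integrableOn_Ioc_of_le hab]
    have := h2.integral_prod_left
    simp_rw [intervalIntegral.integral_of_le hcd]
    exact this
  · rw [intervalIntegrable_iff_integrableOn_Ioc_of_le hcd]
    have := h2.integral_prod_right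
    simp_rw [intervalIntegral.integral_of_le hab]
    exact this

theorem W_cont (N : ℕ) {s : Set (ℝ × ℝ)} (hs : ∀ z ∈ s, z.2 ≠ 0) :
    ContinuousOn (fun z : ℝ × ℝ => W N z.2 z.1 / z.2) s := by
  unfold W
  have h1 : ContinuousOn (fun z : ℝ × ℝ => z.1 / z.2) s :=
    continuous_fst.continuousOn.div continuous_snd.continuousOn hs
  have h2 : ContinuousOn (fun z : ℝ × ℝ => (N : ℝ) * z.1 / z.2) s :=
    (continuous_const.mul continuous_fst).continuousOn.div continuous_snd.continuousOn hs
  exact (((continuousOn_const.mul (h1.pow N)).mul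
    (Real.continuous_exp.comp_continuousOn h2.neg))).div continuous_snd.continuousOn hs

theorem W_nonneg (k : ℕ) {u t : ℝ} (hu : 0 < u) (ht : 0 ≤ t) : 0 ≤ W (k + 3) u t := by
  unfold W
  have := (cN_pos k).le
  unfold cN at this
  exact mul_nonneg (mul_nonneg this (pow_nonneg (div_nonneg ht hu.le) _)) (Real.exp_pos _).le

theorem mx : T_MX := by
  intro ε hε
  refine ⟨⌈(14 * Real.pi ^ 2 / ε) ^ 2⌉₊ + 8, fun N hN T Q f hT hQ hf hf0 hW => ?_⟩
  obtain ⟨k, rfl⟩ : ∃ k, N = k + 3 := ⟨N - 3, by omega⟩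
  have hk : 5 ≤ k := by omega
  have hpi := Real.pi_pos
  set s : ℝ := Real.sqrt ((k : ℝ) + 3) with hs
  have hs0 : 0 < s := Real.sqrt_pos.2 (by positivity)
  have hsε : 14 * Real.pi ^ 2 / ε ≤ s := by
    refine Real.le_sqrt_of_sq_le ?_
    have h1 : (14 * Real.pi ^ 2 / ε) ^ 2 ≤ (⌈(14 * Real.pi ^ 2 / ε) ^ 2⌉₊ : ℝ) := Nat.le_ceil _
    have h2 : ((⌈(14 * Real.pi ^ 2 / ε) ^ 2⌉₊ + 8 : ℕ) : ℝ) ≤ ((k + 3 : ℕ) : ℝ) := by
      exact_mod_cast hN
    push_cast at h2
    linarith
  have hT2 : T ≤ 2 * T := by linarith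
  have hT4 : T / 2 ≤ 4 * T := by linarith
  -- pointwise inequality
  have hpt : ∀ t ∈ Icc T (2 * T), sn T t ≤
      (∫ u in T..(2 * T), sn T u * (W (k + 3) u t / u)) +
        8 * Real.pi / s * ∫ u in (T / 2)..(4 * T), 1 * (W (k + 3) u t / u) := by
    intro t ht
    have ht0 : 0 < t := lt_of_lt_of_le hT ht.1
    have a1 := A_bound k (by omega) hT ht.1 ht.2
    have b1 := B_bound k hk hT ht.1 ht.2
    have e1 := cov k ht0 hT hT2 (sn T) (sn_cont T)
    have e2 := cov k ht0 (by positivity : 0 < T / 2) hT4 (fun _ => 1) continuous_const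
    rw [e1, e2]
    simp only [one_mul]
    have h3 : 4 * Real.pi / s ≤ 8 * Real.pi / s * ∫ v in (t / (4 * T))..(t / (T / 2)),
        mm (k + 3) v := by
      have : 4 * Real.pi / s = 8 * Real.pi / s * (1 / 2) := by ring
      rw [this]
      exact mul_le_mul_of_nonneg_left b1 (by positivity)
    linarith
  -- the two functions of two variables
  have c1 : ContinuousOn (Function.uncurry fun t u : ℝ => sn T u * (W (k + 3) u t / u) * f t)
      (Icc T (2 * T) ×ˢ Icc T (2 * T)) := by
    refine ContinuousOn.mul (ContinuousOn.mul ?_ (W_cont (k + 3) fun z hz => ?_)) ?_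
    · exact ((sn_cont T).comp continuous_snd).continuousOn
    · exact (lt_of_lt_of_le hT hz.2.1).ne'
    · exact (hf.comp continuous_fst).continuousOn
  have c2 : ContinuousOn (Function.uncurry fun t u : ℝ => 1 * (W (k + 3) u t / u) * f t)
      (Icc T (2 * T) ×ˢ Icc (T / 2) (4 * T)) := by
    refine ContinuousOn.mul (ContinuousOn.mul continuousOn_const (W_cont (k + 3) fun z hz => ?_)) ?_
    · exact (lt_of_lt_of_le (by positivity : 0 < T / 2) hz.2.1).ne'
    · exact (hf.comp continuous_fst).continuousOn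
  obtain ⟨f1, f2, f3⟩ := fub hT2 hT2 c1
  obtain ⟨g1, g2, g3⟩ := fub hT2 hT4 c2
  -- the inner integral over `t`
  have inner : ∀ u : ℝ, T / 2 ≤ u → u ≤ 4 * T →
      0 ≤ (∫ t in T..(2 * T), 1 * (W (k + 3) u t / u) * f t) ∧
      (∫ t in T..(2 * T), 1 * (W (k + 3) u t / u) * f t) ≤ Q := by
    intro u hu1 hu2
    have hu0 : 0 < u := lt_of_lt_of_le (by positivity : 0 < T / 2) hu1
    obtain ⟨w1, w2⟩ := hW u hu1 hu2
    have e : (∫ t in T..(2 * T), 1 * (W (k + 3) u t / u) * f t) =
        1 / u * ∫ t in T..(2 * T), W (k + 3) u t * f t := by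
      rw [← intervalIntegral.integral_const_mul]
      refine intervalIntegral.integral_congr fun t _ => ?_
      ring
    rw [e]
    have h0 : 0 ≤ ∫ t in T..(2 * T), W (k + 3) u t * f t :=
      intervalIntegral.integral_nonneg hT2 fun t ht =>
        mul_nonneg (W_nonneg k hu0 (hT.le.trans ht.1)) (hf0 t)
    have h1 : (∫ t in T..(2 * T), W (k + 3) u t * f t) ≤ u * Q := by
      refine le_trans ?_ w2
      rw [intervalIntegral.integral_of_le hT2]
      refine setIntegral_mono_set w1 ?_ ?_
      · refine (ae_restrict_iff' measurableSet_Ioi).2 (Filter.Eventually.of_forall fun t ht => ?_)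
        have ht' : (0 : ℝ) < t := ht
        exact mul_nonneg (W_nonneg k hu0 ht'.le) (hf0 t)
      · exact LE.le.eventuallyLE fun t ht => lt_trans hT ht.1
    refine ⟨mul_nonneg (by positivity) h0, ?_⟩
    calc 1 / u * ∫ t in T..(2 * T), W (k + 3) u t * f t ≤ 1 / u * (u * Q) :=
          mul_le_mul_of_nonneg_left h1 (by positivity)
      _ = Q := by field_simp
  have hfi : IntervalIntegrable (fun t => sn T t * f t) volume T (2 * T) :=
    ((sn_cont T).mul hf).intervalIntegrable _ _
  calc ∫ t in T..(2 * T), sn T t * f t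
      ≤ ∫ t in T..(2 * T), ((∫ u in T..(2 * T), sn T u * (W (k + 3) u t / u) * f t) +
          8 * Real.pi / s * ∫ u in (T / 2)..(4 * T), 1 * (W (k + 3) u t / u) * f t) := by
        refine intervalIntegral.integral_mono_on hT2 hfi (f2.add (g2.const_mul _)) fun t ht => ?_
        rw [intervalIntegral.integral_mul_const, intervalIntegral.integral_mul_const, ← mul_assoc,
          ← add_mul]
        exact mul_le_mul_of_nonneg_right (hpt t ht) (hf0 t)
    _ = (∫ u in T..(2 * T), ∫ t in T..(2 * T), sn T u * (W (k + 3) u t / u) * f t) +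
          8 * Real.pi / s *
            ∫ u in (T / 2)..(4 * T), ∫ t in T..(2 * T), 1 * (W (k + 3) u t / u) * f t := by
        rw [intervalIntegral.integral_add f2 (g2.const_mul _), intervalIntegral.integral_const_mul,
          f1, g1]
    _ ≤ (∫ u in T..(2 * T), sn T u * Q) + 8 * Real.pi / s * ∫ _u in (T / 2)..(4 * T), Q := by
        refine add_le_add ?_ (mul_le_mul_of_nonneg_left ?_ (by positivity))
        · refine intervalIntegral.integral_mono_on hT2 f3
            (((sn_cont T).mul continuous_const).intervalIntegrable _ _) fun u hu => ?_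
          have e : (∫ t in T..(2 * T), sn T u * (W (k + 3) u t / u) * f t) =
              sn T u * ∫ t in T..(2 * T), 1 * (W (k + 3) u t / u) * f t := by
            rw [← intervalIntegral.integral_const_mul]
            refine intervalIntegral.integral_congr fun t _ => ?_
            ring
          rw [e]
          exact mul_le_mul_of_nonneg_left (inner u (by linarith [hu.1]) (by linarith [hu.2])).2
            (sn_nonneg hT hu.1 hu.2)
        · refine intervalIntegral.integral_mono_on hT4 g3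
            (continuous_const.intervalIntegrable _ _) fun u hu => ?_
          exact (inner u hu.1 hu.2).2
    _ = Q * (2 * T / Real.pi) + 8 * Real.pi / s * (7 / 2 * T * Q) := by
        rw [intervalIntegral.integral_mul_const, sn_integral hT, intervalIntegral.integral_const,
          smul_eq_mul]
        ring
    _ ≤ (1 + ε) * Q * (2 * T / Real.pi) := by
        have h1 : 8 * Real.pi / s * (7 / 2 * T * Q) ≤ ε * Q * (2 * T / Real.pi) := by
          have h2 : 14 * Real.pi ^ 2 ≤ ε * s := by
            rw [div_le_iff₀ hε] at hsε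
            linarith
          have e1 : 8 * Real.pi / s * (7 / 2 * T * Q) =
              (14 * Real.pi ^ 2) * (2 * T * Q / (Real.pi * s)) := by
            field_simp
            ring
          have e2 : ε * Q * (2 * T / Real.pi) = (ε * s) * (2 * T * Q / (Real.pi * s)) := by
            field_simp
          rw [e1, e2]
          exact mul_le_mul_of_nonneg_right h2 (by positivity)
        linarith

end Pool.Agent.H2.PZ
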